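import Pool.Agent.helper65.Tor.Defs

set_option autoImplicit false

/-!
Pure algebra: first and second directional derivatives of the local metric, and the exact
formula for the curvature numerator.

Local metric at `(x, y)`:
`B(a,b) = a0 b0 + a1 b1 - kappa(a,b)(y,y) + phi <ahat, bhat>`, `phi = 1 - |y|^2`,
`ahat = a_v + (A1 a0 + A2 a1) J y`, `J y = (-y2, y1)`.
-/

noncomputable section

namespace Pool.Agent.helper65.Tor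

/-- quadratic form of a symmetric matrix `(m0+mr, mi; mi, m0-mr)` -/
def qf (m0 mr mi y1 y2 : ℝ) : ℝ := (m0 + mr) * y1 ^ 2 + 2 * mi * (y1 * y2) + (m0 - mr) * y2 ^ 2

/-- bilinear form of a symmetric matrix -/
def bf (m0 mr mi y1 y2 w1 w2 : ℝ) : ℝ :=
  (m0 + mr) * (y1 * w1) + mi * (y1 * w2 + y2 * w1) + (m0 - mr) * (y2 * w2)

/-- first derivative of a jet in direction `w` -/
def Jet.d1 (f : Jet) (w : Fin 4 → ℝ) : ℝ := f.x * w 0 + f.y * w 1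

/-- second derivative of a jet in directions `t`, `w` -/
def Jet.d2 (f : Jet) (t w : Fin 4 → ℝ) : ℝ :=
  f.xx * (t 0 * w 0) + f.xy * (t 0 * w 1 + t 1 * w 0) + f.yy * (t 1 * w 1)

namespace Jets

variable (J : Jets) (y1 y2 : ℝ)

/-- connection form -/
def al (a : Fin 4 → ℝ) : ℝ := J.a1.v * a 0 + J.a2.v * a 1
def al1 (w a : Fin 4 → ℝ) : ℝ := J.a1.d1 w * a 0 + J.a2.d1 w * a 1
def al2 (t w a : Fin 4 → ℝ) : ℝ := J.a1.d2 t w * a 0 + J.a2.d2 t w * a 1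

/-- vertical parts -/
def h1 (a : Fin 4 → ℝ) : ℝ := a 2 - J.al a * y2
def h2 (a : Fin 4 → ℝ) : ℝ := a 3 + J.al a * y1
def h1' (w a : Fin 4 → ℝ) : ℝ := -(J.al1 w a * y2) - J.al a * w 3
def h2' (w a : Fin 4 → ℝ) : ℝ := J.al1 w a * y1 + J.al a * w 2
def h1'' (t w a : Fin 4 → ℝ) : ℝ := -(J.al2 t w a * y2) - J.al1 w a * t 3 - J.al1 t a * w 3
def h2'' (t w a : Fin 4 → ℝ) : ℝ := J.al2 t w a * y1 + J.al1 w a * t 2 + J.al1 t a * w 2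

def ph : ℝ := 1 - (y1 ^ 2 + y2 ^ 2)
def ph' (w : Fin 4 → ℝ) : ℝ := -2 * (y1 * w 2 + y2 * w 3)
def ph'' (t w : Fin 4 → ℝ) : ℝ := -2 * (t 2 * w 2 + t 3 * w 3)

/-- `kappa(a,b)(y,y)` and derivatives -/
def kap (a b : Fin 4 → ℝ) : ℝ :=
  qf J.s0.v J.sr.v J.si.v y1 y2 * (a 0 * b 0)
    + qf J.k0.v J.kr.v J.ki.v y1 y2 * (a 0 * b 1 + a 1 * b 0)
    + qf J.t0.v J.tr.v J.ti.v y1 y2 * (a 1 * b 1)

def kap' (w a b : Fin 4 → ℝ) : ℝ :=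
  (qf (J.s0.d1 w) (J.sr.d1 w) (J.si.d1 w) y1 y2
      + 2 * bf J.s0.v J.sr.v J.si.v y1 y2 (w 2) (w 3)) * (a 0 * b 0)
    + (qf (J.k0.d1 w) (J.kr.d1 w) (J.ki.d1 w) y1 y2
      + 2 * bf J.k0.v J.kr.v J.ki.v y1 y2 (w 2) (w 3)) * (a 0 * b 1 + a 1 * b 0)
    + (qf (J.t0.d1 w) (J.tr.d1 w) (J.ti.d1 w) y1 y2
      + 2 * bf J.t0.v J.tr.v J.ti.v y1 y2 (w 2) (w 3)) * (a 1 * b 1)

def kap'' (t w a b : Fin 4 → ℝ) : ℝ :=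
  (qf (J.s0.d2 t w) (J.sr.d2 t w) (J.si.d2 t w) y1 y2
      + 2 * bf (J.s0.d1 w) (J.sr.d1 w) (J.si.d1 w) y1 y2 (t 2) (t 3)
      + 2 * bf (J.s0.d1 t) (J.sr.d1 t) (J.si.d1 t) y1 y2 (w 2) (w 3)
      + 2 * bf J.s0.v J.sr.v J.si.v (t 2) (t 3) (w 2) (w 3)) * (a 0 * b 0)
    + (qf (J.k0.d2 t w) (J.kr.d2 t w) (J.ki.d2 t w) y1 y2
      + 2 * bf (J.k0.d1 w) (J.kr.d1 w) (J.ki.d1 w) y1 y2 (t 2) (t 3)
      + 2 * bf (J.k0.d1 t) (J.kr.d1 t) (J.ki.d1 t) y1 y2 (w 2) (w 3)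
      + 2 * bf J.k0.v J.kr.v J.ki.v (t 2) (t 3) (w 2) (w 3)) * (a 0 * b 1 + a 1 * b 0)
    + (qf (J.t0.d2 t w) (J.tr.d2 t w) (J.ti.d2 t w) y1 y2
      + 2 * bf (J.t0.d1 w) (J.tr.d1 w) (J.ti.d1 w) y1 y2 (t 2) (t 3)
      + 2 * bf (J.t0.d1 t) (J.tr.d1 t) (J.ti.d1 t) y1 y2 (w 2) (w 3)
      + 2 * bf J.t0.v J.tr.v J.ti.v (t 2) (t 3) (w 2) (w 3)) * (a 1 * b 1)

/-- the metric as a bilinear form -/
def B (a b : Fin 4 → ℝ) : ℝ :=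
  a 0 * b 0 + a 1 * b 1 - J.kap y1 y2 a b
    + ph y1 y2 * (J.h1 y2 a * J.h1 y2 b + J.h2 y1 a * J.h2 y1 b)

/-- first derivative of the metric: direction `w`, arguments `a, b` -/
def F1 (w a b : Fin 4 → ℝ) : ℝ :=
  -J.kap' y1 y2 w a b
    + ph' y1 y2 w * (J.h1 y2 a * J.h1 y2 b + J.h2 y1 a * J.h2 y1 b)
    + ph y1 y2 * (J.h1' y2 w a * J.h1 y2 b + J.h1 y2 a * J.h1' y2 w b
      + J.h2' y1 w a * J.h2 y1 b + J.h2 y1 a * J.h2' y1 w b)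

/-- second derivative of the metric: outer direction `t`, inner direction `w` -/
def F2 (t w a b : Fin 4 → ℝ) : ℝ :=
  -J.kap'' y1 y2 t w a b
    + ph'' t w * (J.h1 y2 a * J.h1 y2 b + J.h2 y1 a * J.h2 y1 b)
    + ph' y1 y2 w * (J.h1' y2 t a * J.h1 y2 b + J.h1 y2 a * J.h1' y2 t b
      + J.h2' y1 t a * J.h2 y1 b + J.h2 y1 a * J.h2' y1 t b)
    + ph' y1 y2 t * (J.h1' y2 w a * J.h1 y2 b + J.h1 y2 a * J.h1' y2 w b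
      + J.h2' y1 w a * J.h2 y1 b + J.h2 y1 a * J.h2' y1 w b)
    + ph y1 y2 * (J.h1'' y2 t w a * J.h1 y2 b + J.h1' y2 w a * J.h1' y2 t b
      + J.h1' y2 t a * J.h1' y2 w b + J.h1 y2 a * J.h1'' y2 t w b
      + J.h2'' y1 t w a * J.h2 y1 b + J.h2' y1 w a * J.h2' y1 t b
      + J.h2' y1 t a * J.h2' y1 w b + J.h2 y1 a * J.h2'' y1 t w b)

/-- `K(a,b) y` : the vector (components 1, 2) -/
def Ky1 (a b : Fin 4 → ℝ) : ℝ :=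
  ((J.s0.v + J.sr.v) * y1 + J.si.v * y2) * (a 0 * b 0)
    + ((J.k0.v + J.kr.v) * y1 + J.ki.v * y2) * (a 0 * b 1 + a 1 * b 0)
    + ((J.t0.v + J.tr.v) * y1 + J.ti.v * y2) * (a 1 * b 1)
def Ky2 (a b : Fin 4 → ℝ) : ℝ :=
  (J.si.v * y1 + (J.s0.v - J.sr.v) * y2) * (a 0 * b 0)
    + (J.ki.v * y1 + (J.k0.v - J.kr.v) * y2) * (a 0 * b 1 + a 1 * b 0)
    + (J.ti.v * y1 + (J.t0.v - J.tr.v) * y2) * (a 1 * b 1)

/-- `X = K(a,b) y - F(a,b)`, `F(a,b) = <y,ahat> bhat + <y,bhat> ahat - <ahat,bhat> y` -/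
def X1 (a b : Fin 4 → ℝ) : ℝ :=
  J.Ky1 y1 y2 a b - ((y1 * J.h1 y2 a + y2 * J.h2 y1 a) * J.h1 y2 b
    + (y1 * J.h1 y2 b + y2 * J.h2 y1 b) * J.h1 y2 a
    - (J.h1 y2 a * J.h1 y2 b + J.h2 y1 a * J.h2 y1 b) * y1)
def X2 (a b : Fin 4 → ℝ) : ℝ :=
  J.Ky2 y1 y2 a b - ((y1 * J.h1 y2 a + y2 * J.h2 y1 a) * J.h2 y1 b
    + (y1 * J.h1 y2 b + y2 * J.h2 y1 b) * J.h2 y1 a
    - (J.h1 y2 a * J.h1 y2 b + J.h2 y1 a * J.h2 y1 b) * y2)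

/-- gauge part `W` of the vertical Christoffel vector -/
def W1 (a b : Fin 4 → ℝ) : ℝ :=
  -((J.al1 a b + J.al1 b a) / 2 * y2) - J.al b * J.h2 y1 a - J.al a * J.h2 y1 b
    + J.al a * J.al b * y1
def W2 (a b : Fin 4 → ℝ) : ℝ :=
  (J.al1 a b + J.al1 b a) / 2 * y1 + J.al b * J.h1 y2 a + J.al a * J.h1 y2 b
    + J.al a * J.al b * y2

/-- lowered Christoffel symbol contracted with vectors -/
def G3 (a b w : Fin 4 → ℝ) : ℝ :=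
  (J.F1 y1 y2 a b w + J.F1 y1 y2 b a w - J.F1 y1 y2 w a b) / 2

theorem G3_vert1 (a b : Fin 4 → ℝ) :
    J.G3 y1 y2 a b ![0, 0, 1, 0] = J.X1 y1 y2 a b + ph y1 y2 * J.W1 y1 y2 a b := by
  simp only [G3, F1, kap', qf, bf, ph, ph', h1, h2, h1', h2', al, al1, Jet.d1, X1, Ky1, W1,
    Matrix.cons_val_zero, Matrix.cons_val_one, Matrix.cons_val]
  ring

theorem G3_vert2 (a b : Fin 4 → ℝ) :
    J.G3 y1 y2 a b ![0, 0, 0, 1] = J.X2 y1 y2 a b + ph y1 y2 * J.W2 y1 y2 a b := by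
  simp only [G3, F1, kap', qf, bf, ph, ph', h1, h2, h1', h2', al, al1, Jet.d1, X2, Ky2, W2,
    Matrix.cons_val_zero, Matrix.cons_val_one, Matrix.cons_val]
  ring

/-- plane coordinates -/
def pp (u v : Fin 4 → ℝ) : ℝ := u 0 * v 1 - u 1 * v 0
def rr (u v : Fin 4 → ℝ) : ℝ := J.h1 y2 u * J.h2 y1 v - J.h2 y1 u * J.h1 y2 v
def q11 (u v : Fin 4 → ℝ) : ℝ := u 0 * J.h1 y2 v - v 0 * J.h1 y2 u
def q12 (u v : Fin 4 → ℝ) : ℝ := u 0 * J.h2 y1 v - v 0 * J.h2 y1 u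
def q21 (u v : Fin 4 → ℝ) : ℝ := u 1 * J.h1 y2 v - v 1 * J.h1 y2 u
def q22 (u v : Fin 4 → ℝ) : ℝ := u 1 * J.h2 y1 v - v 1 * J.h2 y1 u

/-- the main quadratic form in `(p y, q)` -/
def Main (u v : Fin 4 → ℝ) : ℝ :=
  J.Pq (pp u v * y1) (pp u v * y2) (-J.q21 y2 u v) (-J.q22 y1 u v) (J.q11 y2 u v) (J.q12 y1 u v)

/-- `|K(u,v)y|^2 - <K(u,u)y, K(v,v)y>` in terms of `p` -/
def ric : ℝ :=
  (((J.k0.v + J.kr.v) * y1 + J.ki.v * y2) ^ 2 + (J.ki.v * y1 + (J.k0.v - J.kr.v) * y2) ^ 2)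
    - (((J.s0.v + J.sr.v) * y1 + J.si.v * y2) * ((J.t0.v + J.tr.v) * y1 + J.ti.v * y2)
      + (J.si.v * y1 + (J.s0.v - J.sr.v) * y2) * (J.ti.v * y1 + (J.t0.v - J.tr.v) * y2))

/-- the second derivative part plus the gauge terms -/
theorem big (u v : Fin 4 → ℝ) :
    (J.F2 y1 y2 u v u v + J.F2 y1 y2 v u v u - J.F2 y1 y2 v v u u - J.F2 y1 y2 u u v v) / 2
      + (2 * (J.X1 y1 y2 u v * J.W1 y1 y2 u v + J.X2 y1 y2 u v * J.W2 y1 y2 u v)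
        - (J.X1 y1 y2 u u * J.W1 y1 y2 v v + J.X2 y1 y2 u u * J.W2 y1 y2 v v)
        - (J.X1 y1 y2 v v * J.W1 y1 y2 u u + J.X2 y1 y2 v v * J.W2 y1 y2 u u))
      + ph y1 y2 * ((J.W1 y1 y2 u v ^ 2 + J.W2 y1 y2 u v ^ 2)
        - (J.W1 y1 y2 u u * J.W1 y1 y2 v v + J.W2 y1 y2 u u * J.W2 y1 y2 v v))
    = J.Main y1 y2 u v - pp u v ^ 2 * J.ric y1 y2
      + (ph y1 y2 - 1) * (-3 * J.Om * (J.q11 y2 u v * J.q22 y1 u v - J.q12 y1 u v * J.q21 y2 u v)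
        - pp u v * (J.O1 * (-y2 * J.q11 y2 u v + y1 * J.q12 y1 u v)
          + J.O2 * (-y2 * J.q21 y2 u v + y1 * J.q22 y1 u v))
        - 3 / 4 * J.Om ^ 2 * pp u v ^ 2 * (y1 ^ 2 + y2 ^ 2))
      + 3 * J.Om * (y1 ^ 2 + y2 ^ 2)
        * (J.q11 y2 u v * J.q22 y1 u v - J.q12 y1 u v * J.q21 y2 u v)
      + 2 * J.rr y1 y2 u v ^ 2 := by
  simp only [F2, kap'', qf, bf, ph, ph', ph'', h1, h2, h1', h2', h1'', h2'', al, al1, al2, Jet.d1,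
    Jet.d2, X1, Ky1, W1, X2, Ky2, W2, Main, Pq, ric, pp, rr, q11, q12, q21, q22, Om, O1, O2,
    P00, P10, P11, P20, P21, P22, P30, P31, P32, P33, P40, P41, P42, P43, P44, P50, P51, P52, P53,
    P54, P55, VV0, VVr, VVi, S2r, S2i, K1r, K1i, T1r, T1i, K2r, K2i, S22r, S22i, T11r, T11i,
    K12r, K12i]
  ring

end Jets

end Pool.Agent.helper65.Tor
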