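import Pool.Agent.helper65.Tor.Alg

set_option autoImplicit false

noncomputable section

namespace Pool.Agent.helper65.Tor

/-- model of a lowered horizontal Christoffel symbol -/
def gam (c11 c12 c22 m1x m1y m2x m2y a0 a1 ah1 ah2 b0 b1 bh1 bh2 : ℝ) : ℝ :=
  c11 * (a0 * b0) + c12 * (a0 * b1 + a1 * b0) + c22 * (a1 * b1)
    + (a0 * (m1x * bh1 + m1y * bh2) + a1 * (m2x * bh1 + m2y * bh2))
    + (b0 * (m1x * ah1 + m1y * ah2) + b1 * (m2x * ah1 + m2y * ah2))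

/-- polarised Gauss term in terms of plane coordinates -/
def gau (c11 c12 c22 m1x m1y m2x m2y d11 d12 d22 n1x n1y n2x n2y p q11 q12 q21 q22 : ℝ) : ℝ :=
  -(p ^ 2) * (c11 * d22 + c22 * d11 - 2 * c12 * d12)
    - 2 * p * ((c11 * (n2x * q11 + n2y * q12) + c12 * (n2x * q21 + n2y * q22)
        - c12 * (n1x * q11 + n1y * q12) - c22 * (n1x * q21 + n1y * q22))
      + (d11 * (m2x * q11 + m2y * q12) + d12 * (m2x * q21 + m2y * q22)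
        - d12 * (m1x * q11 + m1y * q12) - d22 * (m1x * q21 + m1y * q22)))
    + 2 * (m1x * q11 + m1y * q12 + m2x * q21 + m2y * q22)
        * (n1x * q11 + n1y * q12 + n2x * q21 + n2y * q22)
    - 4 * (q11 * q22 - q12 * q21) * ((m1x * n2y - m1y * n2x) - (m2x * n1y - m2y * n1x))

theorem gam_gau (c11 c12 c22 m1x m1y m2x m2y d11 d12 d22 n1x n1y n2x n2y
    u0 u1 uh1 uh2 v0 v1 vh1 vh2 : ℝ) :
    2 * gam c11 c12 c22 m1x m1y m2x m2y u0 u1 uh1 uh2 v0 v1 vh1 vh2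
        * gam d11 d12 d22 n1x n1y n2x n2y u0 u1 uh1 uh2 v0 v1 vh1 vh2
      - gam c11 c12 c22 m1x m1y m2x m2y u0 u1 uh1 uh2 u0 u1 uh1 uh2
        * gam d11 d12 d22 n1x n1y n2x n2y v0 v1 vh1 vh2 v0 v1 vh1 vh2
      - gam d11 d12 d22 n1x n1y n2x n2y u0 u1 uh1 uh2 u0 u1 uh1 uh2
        * gam c11 c12 c22 m1x m1y m2x m2y v0 v1 vh1 vh2 v0 v1 vh1 vh2
    = gau c11 c12 c22 m1x m1y m2x m2y d11 d12 d22 n1x n1y n2x n2y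
        (u0 * v1 - u1 * v0) (u0 * vh1 - v0 * uh1) (u0 * vh2 - v0 * uh2)
        (u1 * vh1 - v1 * uh1) (u1 * vh2 - v1 * uh2) := by
  simp only [gam, gau]
  ring

namespace Jets

variable (J : Jets) (y1 y2 : ℝ)

/-- covariant derivatives `(∇_i M)(y,y)` -/
def nS1 : ℝ := qf J.s0.x (J.sr.x - 2 * J.a1.v * J.si.v) (J.si.x + 2 * J.a1.v * J.sr.v) y1 y2
def nS2 : ℝ := qf J.s0.y (J.sr.y - 2 * J.a2.v * J.si.v) (J.si.y + 2 * J.a2.v * J.sr.v) y1 y2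
def nK1 : ℝ := qf J.k0.x (J.kr.x - 2 * J.a1.v * J.ki.v) (J.ki.x + 2 * J.a1.v * J.kr.v) y1 y2
def nK2 : ℝ := qf J.k0.y (J.kr.y - 2 * J.a2.v * J.ki.v) (J.ki.y + 2 * J.a2.v * J.kr.v) y1 y2
def nT1 : ℝ := qf J.t0.x (J.tr.x - 2 * J.a1.v * J.ti.v) (J.ti.x + 2 * J.a1.v * J.tr.v) y1 y2
def nT2 : ℝ := qf J.t0.y (J.tr.y - 2 * J.a2.v * J.ti.v) (J.ti.y + 2 * J.a2.v * J.tr.v) y1 y2

/-- vectors `M y` -/
def Sy1 : ℝ := (J.s0.v + J.sr.v) * y1 + J.si.v * y2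
def Sy2 : ℝ := J.si.v * y1 + (J.s0.v - J.sr.v) * y2
def Ty1 : ℝ := (J.t0.v + J.tr.v) * y1 + J.ti.v * y2
def Ty2 : ℝ := J.ti.v * y1 + (J.t0.v - J.tr.v) * y2
def Kv1 : ℝ := (J.k0.v + J.kr.v) * y1 + J.ki.v * y2
def Kv2 : ℝ := J.ki.v * y1 + (J.k0.v - J.kr.v) * y2

/-- horizontal component `k = 1, 2` of the lowered Christoffel symbol -/
def GX1 (a b : Fin 4 → ℝ) : ℝ :=
  J.G3 y1 y2 a b ![1, 0, 0, 0]
    - J.a1.v * (-(y2 * J.G3 y1 y2 a b ![0, 0, 1, 0]) + y1 * J.G3 y1 y2 a b ![0, 0, 0, 1])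
def GX2 (a b : Fin 4 → ℝ) : ℝ :=
  J.G3 y1 y2 a b ![0, 1, 0, 0]
    - J.a2.v * (-(y2 * J.G3 y1 y2 a b ![0, 0, 1, 0]) + y1 * J.G3 y1 y2 a b ![0, 0, 0, 1])

theorem GX1_eq (a b : Fin 4 → ℝ) :
    J.GX1 y1 y2 a b = gam (-(J.nS1 y1 y2) / 2) (-(J.nS2 y1 y2) / 2)
      (-(2 * J.nK2 y1 y2 - J.nT1 y1 y2) / 2)
      (-(J.Sy1 y1 y2)) (-(J.Sy2 y1 y2))
      (-(J.Kv1 y1 y2) + ph y1 y2 * J.Om * y2 / 2) (-(J.Kv2 y1 y2) - ph y1 y2 * J.Om * y1 / 2)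
      (a 0) (a 1) (J.h1 y2 a) (J.h2 y1 a) (b 0) (b 1) (J.h1 y2 b) (J.h2 y1 b) := by
  simp only [GX1, G3, F1, kap', qf, bf, ph, ph', h1, h2, h1', h2', al, al1, Jet.d1, gam,
    nS1, nS2, nK2, nT1, Sy1, Sy2, Kv1, Kv2, Om,
    Matrix.cons_val_zero, Matrix.cons_val_one, Matrix.cons_val]
  ring

theorem GX2_eq (a b : Fin 4 → ℝ) :
    J.GX2 y1 y2 a b = gam (-(2 * J.nK1 y1 y2 - J.nS2 y1 y2) / 2) (-(J.nT1 y1 y2) / 2)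
      (-(J.nT2 y1 y2) / 2)
      (-(J.Kv1 y1 y2) - ph y1 y2 * J.Om * y2 / 2) (-(J.Kv2 y1 y2) + ph y1 y2 * J.Om * y1 / 2)
      (-(J.Ty1 y1 y2)) (-(J.Ty2 y1 y2))
      (a 0) (a 1) (J.h1 y2 a) (J.h2 y1 a) (b 0) (b 1) (J.h1 y2 b) (J.h2 y1 b) := by
  simp only [GX2, G3, F1, kap', qf, bf, ph, ph', h1, h2, h1', h2', al, al1, Jet.d1, gam,
    nS2, nK1, nT1, nT2, Ty1, Ty2, Kv1, Kv2, Om,
    Matrix.cons_val_zero, Matrix.cons_val_one, Matrix.cons_val]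
  ring

/-- cross terms -/
def cross (q11 q12 q21 q22 : ℝ) : ℝ :=
  2 * ((J.Sy1 y1 y2 * q11 + J.Sy2 y1 y2 * q12) * (y1 * q11 + y2 * q12)
      + (J.Kv1 y1 y2 * q11 + J.Kv2 y1 y2 * q12) * (y1 * q21 + y2 * q22)
      + (J.Kv1 y1 y2 * q21 + J.Kv2 y1 y2 * q22) * (y1 * q11 + y2 * q12)
      + (J.Ty1 y1 y2 * q21 + J.Ty2 y1 y2 * q22) * (y1 * q21 + y2 * q22))
    - ((J.Sy1 y1 y2 * y1 + J.Sy2 y1 y2 * y2) * (q11 ^ 2 + q12 ^ 2)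
      + 2 * (J.Kv1 y1 y2 * y1 + J.Kv2 y1 y2 * y2) * (q11 * q21 + q12 * q22)
      + (J.Ty1 y1 y2 * y1 + J.Ty2 y1 y2 * y2) * (q21 ^ 2 + q22 ^ 2))

theorem XX (u v : Fin 4 → ℝ) :
    (J.X1 y1 y2 u v ^ 2 + J.X2 y1 y2 u v ^ 2)
      - (J.X1 y1 y2 u u * J.X1 y1 y2 v v + J.X2 y1 y2 u u * J.X2 y1 y2 v v)
    = pp u v ^ 2 * J.ric y1 y2
      + J.cross y1 y2 (J.q11 y2 u v) (J.q12 y1 u v) (J.q21 y2 u v) (J.q22 y1 u v)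
      + 2 * (y1 ^ 2 + y2 ^ 2) * J.rr y1 y2 u v ^ 2 := by
  simp only [X1, X2, Ky1, Ky2, h1, h2, al, pp, ric, cross, q11, q12, q21, q22, rr, Sy1, Sy2,
    Kv1, Kv2, Ty1, Ty2]
  ring

end Jets

end Pool.Agent.helper65.Tor
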