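import Pool.Agent.helper65.Tor.Est3

set_option autoImplicit false

noncomputable section

namespace Pool.Agent.helper65.Tor

namespace Jets

variable {J : Jets} {C : ℝ}

theorem indep_hat {y1 y2 : ℝ} {u v : Fin 4 → ℝ} (hli : LinearIndependent ℝ ![u, v])
    (s t : ℝ) (h0 : s * u 0 + t * v 0 = 0) (h1 : s * u 1 + t * v 1 = 0)
    (h2 : s * J.h1 y2 u + t * J.h1 y2 v = 0) (h3 : s * J.h2 y1 u + t * J.h2 y1 v = 0) :
    s = 0 ∧ t = 0 := by
  rw [LinearIndependent.pair_iff] at hli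
  apply hli s t
  have hal : s * J.al u + t * J.al v = 0 := by
    unfold al
    linear_combination J.a1.v * h0 + J.a2.v * h1
  unfold Jets.h1 at h2
  unfold Jets.h2 at h3
  funext i
  fin_cases i
  · simpa using h0
  · simpa using h1
  · simp only [Fin.reduceFinMk, Pi.add_apply, Pi.smul_apply, smul_eq_mul, Pi.zero_apply]
    linear_combination h2 + y2 * hal
  · simp only [Fin.reduceFinMk, Pi.add_apply, Pi.smul_apply, smul_eq_mul, Pi.zero_apply]
    linear_combination h3 - y1 * hal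

theorem Tot_pos (h : J.Bd C) (hC : 0 ≤ C) {m : ℝ}
    (hP : ∀ w0 w1 w2 w3 w4 w5 : ℝ,
      m * (w0 ^ 2 + w1 ^ 2 + w2 ^ 2 + w3 ^ 2 + w4 ^ 2 + w5 ^ 2) ≤ J.Pq w0 w1 w2 w3 w4 w5)
    {y1 y2 : ℝ} (hn : 0 < y1 ^ 2 + y2 ^ 2) (hn2 : y1 ^ 2 + y2 ^ 2 ≤ 1 / 2)
    (hn3 : (y1 ^ 2 + y2 ^ 2) * (6 * C) ≤ 1 / 8) (hn4 : Kc C * (y1 ^ 2 + y2 ^ 2) < m)
    (u v : Fin 4 → ℝ) (hli : LinearIndependent ℝ ![u, v]) :
    0 < J.Tot y1 y2 u v := by
  refine lt_of_lt_of_le ?_ (Tot_lower h hC hP hn hn2 hn3 u v)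
  have hm : 0 < m - Kc C * (y1 ^ 2 + y2 ^ 2) := by linarith
  set n := y1 ^ 2 + y2 ^ 2 with hndef
  by_contra hcon
  rw [not_lt] at hcon
  set M := m - Kc C * n with hM
  have e1 : 0 ≤ M * (n * pp u v ^ 2) := by positivity
  have e2 : 0 ≤ M * (J.q11 y2 u v ^ 2) := by positivity
  have e3 : 0 ≤ M * (J.q12 y1 u v ^ 2) := by positivity
  have e4 : 0 ≤ M * (J.q21 y2 u v ^ 2) := by positivity
  have e5 : 0 ≤ M * (J.q22 y1 u v ^ 2) := by positivity
  have e6 : 0 ≤ J.rr y1 y2 u v ^ 2 := by positivity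
  have hsum : M * (n * pp u v ^ 2) + M * (J.q11 y2 u v ^ 2) + M * (J.q12 y1 u v ^ 2)
    + M * (J.q21 y2 u v ^ 2) + M * (J.q22 y1 u v ^ 2) + 2 * J.rr y1 y2 u v ^ 2 ≤ 0 := by
    linarith
  have z1 : pp u v = 0 := by
    have : M * (n * pp u v ^ 2) = 0 := by linarith
    rcases mul_eq_zero.1 this with h | h
    · exact absurd h hm.ne'
    rcases mul_eq_zero.1 h with h | h
    · exact absurd h hn.ne'
    exact pow_eq_zero_iff (two_ne_zero) |>.1 h
  have zz : ∀ q : ℝ, M * q ^ 2 = 0 → q = 0 := by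
    intro q hq
    rcases mul_eq_zero.1 hq with h | h
    · exact absurd h hm.ne'
    exact pow_eq_zero_iff (two_ne_zero) |>.1 h
  have z2 : J.q11 y2 u v = 0 := zz _ (by linarith)
  have z3 : J.q12 y1 u v = 0 := zz _ (by linarith)
  have z4 : J.q21 y2 u v = 0 := zz _ (by linarith)
  have z5 : J.q22 y1 u v = 0 := zz _ (by linarith)
  have z6 : J.rr y1 y2 u v = 0 := by
    have : J.rr y1 y2 u v ^ 2 = 0 := by linarith
    exact pow_eq_zero_iff (two_ne_zero) |>.1 this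
  unfold pp at z1
  unfold q11 at z2
  unfold q12 at z3
  unfold q21 at z4
  unfold q22 at z5
  unfold rr at z6
  have w0 := (indep_hat (J := J) (y1 := y1) (y2 := y2) hli (v 0) (-(u 0)) (by ring)
    (by linarith) (by linarith) (by linarith)).2
  have w1 := (indep_hat (J := J) (y1 := y1) (y2 := y2) hli (v 1) (-(u 1)) (by linarith)
    (by ring) (by linarith) (by linarith)).2
  have w2 := (indep_hat (J := J) (y1 := y1) (y2 := y2) hli (J.h1 y2 v) (-(J.h1 y2 u))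
    (by linarith) (by linarith) (by ring) (by linarith)).2
  have w3 := (indep_hat (J := J) (y1 := y1) (y2 := y2) hli (J.h2 y1 v) (-(J.h2 y1 u))
    (by linarith) (by linarith) (by linarith) (by ring)).2
  have w4 := (indep_hat (J := J) (y1 := y1) (y2 := y2) hli 1 0
    (by linarith) (by linarith) (by linarith) (by linarith)).1
  exact one_ne_zero w4

end Jets

end Pool.Agent.helper65.Tor
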