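import Pool.Agent.helper65.Tor.Loc
import Pool.Agent.helper65.Tor.Est4

set_option autoImplicit false

noncomputable section

namespace Pool.Agent.helper65.Tor

/-- sum of absolute values of the coefficients -/
def nb (f : TP) : ℕ := (f.map fun t => t.2.2.1.natAbs + t.2.2.2.natAbs).sum

theorem ev_nb (f : TP) (x y : ℝ) : |ev f x y| ≤ (nb f : ℝ) / 20000 := by
  induction f with
  | nil => simp [ev, nb]
  | cons t f ih =>
    have e : (nb (t :: f) : ℝ) = ((t.2.2.1.natAbs : ℝ) + (t.2.2.2.natAbs : ℝ)) + (nb f : ℝ) := by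
      have : nb (t :: f) = (t.2.2.1.natAbs + t.2.2.2.natAbs) + nb f := rfl
      rw [this]; push_cast; ring
    have e' : (nb (t :: f) : ℝ) / 20000
        = ((t.2.2.1.natAbs : ℝ) + (t.2.2.2.natAbs : ℝ)) / 20000 + (nb f : ℝ) / 20000 := by
      rw [e]; ring
    rw [ev_cons, e']
    refine (abs_add_le _ _).trans (add_le_add ?_ ih)
    rw [abs_div, abs_of_pos (by norm_num : (0:ℝ) < 20000)]
    refine div_le_div_of_nonneg_right ?_ (by norm_num)
    have c : ∀ n : ℤ, |(n : ℝ)| = (n.natAbs : ℝ) := fun n => by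
      rw [Nat.cast_natAbs]; push_cast; rfl
    refine (abs_add_le _ _).trans (add_le_add ?_ ?_)
    · rw [abs_mul, ← c]
      exact mul_le_of_le_one_right (abs_nonneg _) (Real.abs_cos_le_one _)
    · rw [abs_mul, ← c]
      exact mul_le_of_le_one_right (abs_nonneg _) (Real.abs_sin_le_one _)

theorem ev_one {f : TP} (h : nb f ≤ 20000) (x y : ℝ) : |ev f x y| ≤ 1 := by
  refine (ev_nb f x y).trans ?_
  rw [div_le_one (by norm_num)]
  exact_mod_cast h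

theorem jet_bd (f : TP) (h : nb f ≤ 20000 ∧ nb (dX f) ≤ 20000 ∧ nb (dY f) ≤ 20000 ∧
    nb (dX (dX f)) ≤ 20000 ∧ nb (dY (dX f)) ≤ 20000 ∧ nb (dY (dY f)) ≤ 20000) (x y : ℝ) :
    (jet f x y).Bd 1 :=
  ⟨ev_one h.1 x y, ev_one h.2.1 x y, ev_one h.2.2.1 x y, ev_one h.2.2.2.1 x y,
    ev_one h.2.2.2.2.1 x y, ev_one h.2.2.2.2.2 x y⟩

theorem djets_bd (x y : ℝ) : (djets x y).Bd 1 :=
  ⟨jet_bd _ (by decide) x y, jet_bd _ (by decide) x y, jet_bd _ (by decide) x y,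
   jet_bd _ (by decide) x y, jet_bd _ (by decide) x y, jet_bd _ (by decide) x y,
   jet_bd _ (by decide) x y, jet_bd _ (by decide) x y, jet_bd _ (by decide) x y,
   jet_bd _ (by decide) x y, jet_bd _ (by decide) x y⟩

theorem qf_bd_n {m0 mr mi y1 y2 C : ℝ} (h0 : |m0| ≤ C) (hr : |mr| ≤ C) (hi : |mi| ≤ C) :
    |qf m0 mr mi y1 y2| ≤ 3 * C * (y1 ^ 2 + y2 ^ 2) := by
  have e : qf m0 mr mi y1 y2
    = m0 * (y1 ^ 2 + y2 ^ 2) + mr * (y1 ^ 2 - y2 ^ 2) + mi * (2 * y1 * y2) := by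
    unfold qf; ring
  rw [e]
  have a1 : |y1 ^ 2 + y2 ^ 2| ≤ y1 ^ 2 + y2 ^ 2 := by rw [abs_of_nonneg (by positivity)]
  have a2 : |y1 ^ 2 - y2 ^ 2| ≤ y1 ^ 2 + y2 ^ 2 := by
    rw [abs_le]; constructor <;> nlinarith [sq_nonneg y1, sq_nonneg y2]
  have a3 : |2 * y1 * y2| ≤ y1 ^ 2 + y2 ^ 2 := by
    rw [abs_le]; constructor <;> nlinarith [sq_nonneg (y1 + y2), sq_nonneg (y1 - y2)]
  refine (bA (bA (bM h0 a1) (bM hr a2)) (bM hi a3)).trans (le_of_eq ?_)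
  ring

namespace Jets

variable {J : Jets}

/-- positive definiteness of the local metric -/
theorem B_pos (h : J.Bd 1) {y1 y2 : ℝ} (hn : (y1 ^ 2 + y2 ^ 2) ≤ 1 / 48) {a : Fin 4 → ℝ}
    (ha : a ≠ 0) : 0 < J.B y1 y2 a a := by
  have S := qf_bd_n (y1 := y1) (y2 := y2) h.s0.v h.sr.v h.si.v
  have K := qf_bd_n (y1 := y1) (y2 := y2) h.k0.v h.kr.v h.ki.v
  have T := qf_bd_n (y1 := y1) (y2 := y2) h.t0.v h.tr.v h.ti.v
  have hph : 1 / 2 ≤ ph y1 y2 := by unfold ph; linarith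
  have hB : 1 / 2 * (a 0 ^ 2 + a 1 ^ 2 + J.h1 y2 a ^ 2 + J.h2 y1 a ^ 2) ≤ J.B y1 y2 a a := by
    unfold B kap
    generalize qf J.s0.v J.sr.v J.si.v y1 y2 = s at *
    generalize qf J.k0.v J.kr.v J.ki.v y1 y2 = k at *
    generalize qf J.t0.v J.tr.v J.ti.v y1 y2 = t at *
    generalize J.h1 y2 a = p at *
    generalize J.h2 y1 a = q at *
    generalize ph y1 y2 = f at *
    generalize a 0 = x at *
    generalize a 1 = y at *
    have hs : |s| ≤ 1 / 8 := S.trans (by linarith)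
    have hk : |k| ≤ 1 / 8 := K.trans (by linarith)
    have ht : |t| ≤ 1 / 8 := T.trans (by linarith)
    rw [abs_le] at hs hk ht
    have e1 : s * (x * x) ≤ 1 / 8 * x ^ 2 := by nlinarith [sq_nonneg x]
    have e2 : t * (y * y) ≤ 1 / 8 * y ^ 2 := by nlinarith [sq_nonneg y]
    have e3 : k * (x * y + y * x) ≤ 1 / 8 * (x ^ 2 + y ^ 2) := by
      nlinarith [sq_nonneg (x + y), sq_nonneg (x - y),
        mul_nonneg (by linarith [hk.1] : 0 ≤ k + 1 / 8) (sq_nonneg (x - y)),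
        mul_nonneg (by linarith [hk.2] : 0 ≤ 1 / 8 - k) (sq_nonneg (x + y))]
    have e4 : 1 / 2 * (p ^ 2 + q ^ 2) ≤ f * (p * p + q * q) := by
      nlinarith [sq_nonneg p, sq_nonneg q]
    nlinarith [sq_nonneg x, sq_nonneg y]
  refine lt_of_lt_of_le ?_ hB
  by_contra hcon
  rw [not_lt] at hcon
  apply ha
  have p0 : a 0 = 0 := by
    have : a 0 ^ 2 = 0 := by
      nlinarith [sq_nonneg (a 0), sq_nonneg (a 1), sq_nonneg (J.h1 y2 a), sq_nonneg (J.h2 y1 a)]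
    exact pow_eq_zero_iff (two_ne_zero) |>.1 this
  have p1 : a 1 = 0 := by
    have : a 1 ^ 2 = 0 := by
      nlinarith [sq_nonneg (a 0), sq_nonneg (a 1), sq_nonneg (J.h1 y2 a), sq_nonneg (J.h2 y1 a)]
    exact pow_eq_zero_iff (two_ne_zero) |>.1 this
  have p2 : J.h1 y2 a = 0 := by
    have : J.h1 y2 a ^ 2 = 0 := by
      nlinarith [sq_nonneg (a 0), sq_nonneg (a 1), sq_nonneg (J.h1 y2 a), sq_nonneg (J.h2 y1 a)]
    exact pow_eq_zero_iff (two_ne_zero) |>.1 this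
  have p3 : J.h2 y1 a = 0 := by
    have : J.h2 y1 a ^ 2 = 0 := by
      nlinarith [sq_nonneg (a 0), sq_nonneg (a 1), sq_nonneg (J.h1 y2 a), sq_nonneg (J.h2 y1 a)]
    exact pow_eq_zero_iff (two_ne_zero) |>.1 this
  unfold h1 al at p2
  unfold h2 al at p3
  rw [p0, p1] at p2 p3
  funext i
  fin_cases i
  · exact p0
  · exact p1
  · simpa using p2
  · simpa using p3

theorem hd_pos (h : J.Bd 1) {y1 y2 : ℝ} (hn : (y1 ^ 2 + y2 ^ 2) ≤ 1 / 48) :
    0 < J.hd y1 y2 := by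
  have S := qf_bd_n (y1 := y1) (y2 := y2) h.s0.v h.sr.v h.si.v
  have K := qf_bd_n (y1 := y1) (y2 := y2) h.k0.v h.kr.v h.ki.v
  have T := qf_bd_n (y1 := y1) (y2 := y2) h.t0.v h.tr.v h.ti.v
  unfold hd
  generalize qf J.s0.v J.sr.v J.si.v y1 y2 = s at *
  generalize qf J.k0.v J.kr.v J.ki.v y1 y2 = k at *
  generalize qf J.t0.v J.tr.v J.ti.v y1 y2 = t at *
  have hs : |s| ≤ 1 / 8 := S.trans (by linarith)
  have hk : |k| ≤ 1 / 8 := K.trans (by linarith)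
  have ht : |t| ≤ 1 / 8 := T.trans (by linarith)
  rw [abs_le] at hs hk ht
  nlinarith

end Jets

end Pool.Agent.helper65.Tor
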