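import Pool.Agent.helper65.Tor.Inv

set_option autoImplicit false

noncomputable section

namespace Pool.Agent.helper65.Tor

theorem ev_cons (t : ℤ × ℤ × ℤ × ℤ) (f : TP) (x y : ℝ) :
    ev (t :: f) x y = ((t.2.2.1 : ℝ) * Real.cos (t.1 * x + t.2.1 * y)
    + (t.2.2.2 : ℝ) * Real.sin (t.1 * x + t.2.1 * y)) / 20000 + ev f x y := by
  simp [ev]

theorem ev_deriv (f : TP) (x y a b : ℝ) :
    HasDerivAt (fun s : ℝ => ev f (x + s * a) (y + s * b))
      (ev (dX f) x y * a + ev (dY f) x y * b) 0 := by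
  induction f with
  | nil => simpa [ev, dX, dY] using hasDerivAt_const (0:ℝ) (0:ℝ)
  | cons t f ih =>
    have hl : HasDerivAt (fun s : ℝ => (t.1 : ℝ) * (x + s * a) + t.2.1 * (y + s * b))
        ((t.1 : ℝ) * a + t.2.1 * b) 0 := by
      have h1 : HasDerivAt (fun s : ℝ => x + s * a) a 0 := by
        simpa using ((hasDerivAt_id (0:ℝ)).mul_const a).const_add x
      have h2 : HasDerivAt (fun s : ℝ => y + s * b) b 0 := by
        simpa using ((hasDerivAt_id (0:ℝ)).mul_const b).const_add y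
      exact (h1.const_mul _).add (h2.const_mul _)
    have hc := hl.cos
    have hs := hl.sin
    have h := (((hc.const_mul (t.2.2.1 : ℝ)).add (hs.const_mul (t.2.2.2 : ℝ))).div_const
      20000).add ih
    have e1 : (fun s : ℝ => ev (t :: f) (x + s * a) (y + s * b))
      = (fun s : ℝ => ((t.2.2.1 : ℝ) * Real.cos ((t.1 : ℝ) * (x + s * a) + t.2.1 * (y + s * b))
    + (t.2.2.2 : ℝ) * Real.sin ((t.1 : ℝ) * (x + s * a) + t.2.1 * (y + s * b))) / 20000
      + ev f (x + s * a) (y + s * b)) := by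
      funext s; rw [ev_cons]
    rw [e1]
    refine HasDerivAt.congr_deriv h ?_
    have e2 : dX (t :: f) = (t.1, t.2.1, t.1 * t.2.2.2, - (t.1 * t.2.2.1)) :: dX f := rfl
    have e3 : dY (t :: f) = (t.1, t.2.1, t.2.1 * t.2.2.2, - (t.2.1 * t.2.2.1)) :: dY f := rfl
    rw [e2, e3, ev_cons, ev_cons]
    push_cast
    simp only [zero_mul, add_zero]
    ring

theorem dXY (f : TP) : dX (dY f) = dY (dX f) := by
  simp only [dX, dY, List.map_map]
  refine List.map_congr_left fun t _ => ?_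
  simp only [Function.comp]
  ring_nf

theorem ev_contDiff (f : TP) {n : WithTop ℕ∞} {a b : E4 → ℝ} (ha : ContDiff ℝ n a)
    (hb : ContDiff ℝ n b) : ContDiff ℝ n (fun z => ev f (a z) (b z)) := by
  induction f with
  | nil => simpa [ev] using contDiff_const
  | cons t f ih =>
    simp only [ev_cons]
    fun_prop

/-- derivative along a line of the components of jets -/
theorem jet_v (f : TP) (z w : E4) :
    HasDerivAt (fun s : ℝ => (jet f ((z + s • w) 0) ((z + s • w) 1)).v)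
      ((jet f (z 0) (z 1)).d1 w) 0 := by
  simpa [jet, Jet.d1] using ev_deriv f (z 0) (z 1) (w 0) (w 1)

theorem jet_x (f : TP) (z w : E4) :
    HasDerivAt (fun s : ℝ => (jet f ((z + s • w) 0) ((z + s • w) 1)).x)
      ((jet f (z 0) (z 1)).xx * w 0 + (jet f (z 0) (z 1)).xy * w 1) 0 := by
  simpa [jet, Jet.d1] using ev_deriv (dX f) (z 0) (z 1) (w 0) (w 1)

theorem jet_y (f : TP) (z w : E4) :
    HasDerivAt (fun s : ℝ => (jet f ((z + s • w) 0) ((z + s • w) 1)).y)
      ((jet f (z 0) (z 1)).xy * w 0 + (jet f (z 0) (z 1)).yy * w 1) 0 := by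
  simpa [jet, Jet.d1, dXY] using ev_deriv (dY f) (z 0) (z 1) (w 0) (w 1)

theorem jet_d1 (f : TP) (z t w : E4) :
    HasDerivAt (fun s : ℝ => (jet f ((z + s • t) 0) ((z + s • t) 1)).d1 w)
      ((jet f (z 0) (z 1)).d2 t w) 0 := by
  have := ((jet_x f z t).mul_const (w 0)).add ((jet_y f z t).mul_const (w 1))
  refine HasDerivAt.congr_deriv this ?_
  simp only [Jet.d2]; ring

theorem coord_d (i : Fin 4) (z w : E4) :
    HasDerivAt (fun s : ℝ => (z + s • w) i) (w i) 0 := by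
  simpa using ((hasDerivAt_id (0:ℝ)).mul_const (w i)).const_add (z i)

theorem qf_d {m0 mr mi y1 y2 : ℝ → ℝ} {m0' mr' mi' y1' y2' s : ℝ} (h0 : HasDerivAt m0 m0' s)
    (hr : HasDerivAt mr mr' s) (hi : HasDerivAt mi mi' s) (h1 : HasDerivAt y1 y1' s)
    (h2 : HasDerivAt y2 y2' s) :
    HasDerivAt (fun s => qf (m0 s) (mr s) (mi s) (y1 s) (y2 s))
      (qf m0' mr' mi' (y1 s) (y2 s) + 2 * bf (m0 s) (mr s) (mi s) (y1 s) (y2 s) y1' y2') s := by
  have := (((h0.add hr).mul (h1.pow 2)).add ((hi.const_mul 2).mul (h1.mul h2))).add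
    ((h0.sub hr).mul (h2.pow 2))
  refine HasDerivAt.congr_deriv this ?_
  simp only [qf, bf, Pi.add_apply, Pi.sub_apply, Pi.mul_apply, Pi.pow_apply]
  push_cast
  ring

theorem bf_d {m0 mr mi y1 y2 : ℝ → ℝ} {m0' mr' mi' y1' y2' s : ℝ} (h0 : HasDerivAt m0 m0' s)
    (hr : HasDerivAt mr mr' s) (hi : HasDerivAt mi mi' s) (h1 : HasDerivAt y1 y1' s)
    (h2 : HasDerivAt y2 y2' s) (w1 w2 : ℝ) :
    HasDerivAt (fun s => bf (m0 s) (mr s) (mi s) (y1 s) (y2 s) w1 w2)
      (bf m0' mr' mi' (y1 s) (y2 s) w1 w2 + bf (m0 s) (mr s) (mi s) y1' y2' w1 w2) s := by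
  have := (((h0.add hr).mul (h1.mul_const w1)).add
    (hi.mul ((h1.mul_const w2).add (h2.mul_const w1)))).add
    ((h0.sub hr).mul (h2.mul_const w2))
  refine HasDerivAt.congr_deriv this ?_
  simp only [bf, Pi.add_apply, Pi.sub_apply]
  ring

end Pool.Agent.helper65.Tor
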