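import Pool.Agent.helper65.Tor.Calc

set_option autoImplicit false

noncomputable section

namespace Pool.Agent.helper65.Tor

/-- jets at a point of `ℝ⁴` -/
def JJ (z : E4) : Jets := djets (z 0) (z 1)

theorem kap_d (a b z w : E4) :
    HasDerivAt (fun s : ℝ => (JJ (z + s • w)).kap ((z + s • w) 2) ((z + s • w) 3) a b)
      ((JJ z).kap' (z 2) (z 3) w a b) 0 := by
  have y1 := coord_d 2 z w
  have y2 := coord_d 3 z w
  have hS := qf_d (jet_v dS0 z w) (jet_v dSr z w) (jet_v dSi z w) y1 y2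
  have hK := qf_d (jet_v dK0 z w) (jet_v dKr z w) (jet_v dKi z w) y1 y2
  have hT := qf_d (jet_v dT0 z w) (jet_v dTr z w) (jet_v dTi z w) y1 y2
  have := ((hS.mul_const (a 0 * b 0)).add (hK.mul_const (a 0 * b 1 + a 1 * b 0))).add
    (hT.mul_const (a 1 * b 1))
  refine HasDerivAt.congr_deriv this ?_
  simp only [zero_smul, add_zero]
  rfl

theorem al_d (a z w : E4) :
    HasDerivAt (fun s : ℝ => (JJ (z + s • w)).al a) ((JJ z).al1 w a) 0 := by
  exact ((jet_v dA1 z w).mul_const (a 0)).add ((jet_v dA2 z w).mul_const (a 1))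

theorem al1_d (w a z t : E4) :
    HasDerivAt (fun s : ℝ => (JJ (z + s • t)).al1 w a) ((JJ z).al2 t w a) 0 := by
  exact ((jet_d1 dA1 z t w).mul_const (a 0)).add ((jet_d1 dA2 z t w).mul_const (a 1))

theorem h1_d (a z w : E4) :
    HasDerivAt (fun s : ℝ => (JJ (z + s • w)).h1 ((z + s • w) 3) a)
      ((JJ z).h1' (z 3) w a) 0 := by
  have := ((al_d a z w).mul (coord_d 3 z w)).const_sub (a 2)
  refine HasDerivAt.congr_deriv this ?_
  simp only [zero_smul, add_zero, Jets.h1']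
  ring

theorem h2_d (a z w : E4) :
    HasDerivAt (fun s : ℝ => (JJ (z + s • w)).h2 ((z + s • w) 2) a)
      ((JJ z).h2' (z 2) w a) 0 := by
  have := ((al_d a z w).mul (coord_d 2 z w)).const_add (a 3)
  refine HasDerivAt.congr_deriv this ?_
  simp only [zero_smul, add_zero, Jets.h2']

theorem h1'_d (w a z t : E4) :
    HasDerivAt (fun s : ℝ => (JJ (z + s • t)).h1' ((z + s • t) 3) w a)
      ((JJ z).h1'' (z 3) t w a) 0 := by
  have := (((al1_d w a z t).mul (coord_d 3 z t)).neg).sub ((al_d a z t).mul_const (w 3))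
  refine HasDerivAt.congr_deriv this ?_
  simp only [zero_smul, add_zero, Jets.h1'']
  ring

theorem h2'_d (w a z t : E4) :
    HasDerivAt (fun s : ℝ => (JJ (z + s • t)).h2' ((z + s • t) 2) w a)
      ((JJ z).h2'' (z 2) t w a) 0 := by
  have := ((al1_d w a z t).mul (coord_d 2 z t)).add ((al_d a z t).mul_const (w 2))
  refine HasDerivAt.congr_deriv this ?_
  simp only [zero_smul, add_zero, Jets.h2'']

theorem ph_d (z w : E4) :
    HasDerivAt (fun s : ℝ => Jets.ph ((z + s • w) 2) ((z + s • w) 3))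
      (Jets.ph' (z 2) (z 3) w) 0 := by
  have := (((coord_d 2 z w).pow 2).add ((coord_d 3 z w).pow 2)).const_sub 1
  refine HasDerivAt.congr_deriv this ?_
  simp only [zero_smul, add_zero, Jets.ph']
  push_cast
  ring

theorem ph'_d (w z t : E4) :
    HasDerivAt (fun s : ℝ => Jets.ph' ((z + s • t) 2) ((z + s • t) 3) w)
      (Jets.ph'' t w) 0 := by
  have := (((coord_d 2 z t).mul_const (w 2)).add ((coord_d 3 z t).mul_const (w 3))).const_mul (-2)
  exact this

theorem kap'_d (w a b z t : E4) :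
    HasDerivAt (fun s : ℝ => (JJ (z + s • t)).kap' ((z + s • t) 2) ((z + s • t) 3) w a b)
      ((JJ z).kap'' (z 2) (z 3) t w a b) 0 := by
  have y1 := coord_d 2 z t
  have y2 := coord_d 3 z t
  have hS := (qf_d (jet_d1 dS0 z t w) (jet_d1 dSr z t w) (jet_d1 dSi z t w) y1 y2).add
    ((bf_d (jet_v dS0 z t) (jet_v dSr z t) (jet_v dSi z t) y1 y2 (w 2) (w 3)).const_mul 2)
  have hK := (qf_d (jet_d1 dK0 z t w) (jet_d1 dKr z t w) (jet_d1 dKi z t w) y1 y2).add
    ((bf_d (jet_v dK0 z t) (jet_v dKr z t) (jet_v dKi z t) y1 y2 (w 2) (w 3)).const_mul 2)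
  have hT := (qf_d (jet_d1 dT0 z t w) (jet_d1 dTr z t w) (jet_d1 dTi z t w) y1 y2).add
    ((bf_d (jet_v dT0 z t) (jet_v dTr z t) (jet_v dTi z t) y1 y2 (w 2) (w 3)).const_mul 2)
  have := ((hS.mul_const (a 0 * b 0)).add (hK.mul_const (a 0 * b 1 + a 1 * b 0))).add
    (hT.mul_const (a 1 * b 1))
  refine HasDerivAt.congr_deriv this ?_
  simp only [zero_smul, add_zero, Jets.kap'', JJ, djets]
  unfold bf
  ring

theorem B_d (a b z w : E4) :
    HasDerivAt (fun s : ℝ => (JJ (z + s • w)).B ((z + s • w) 2) ((z + s • w) 3) a b)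
      ((JJ z).F1 (z 2) (z 3) w a b) 0 := by
  have := ((kap_d a b z w).const_sub (a 0 * b 0 + a 1 * b 1)).add
    ((ph_d z w).mul (((h1_d a z w).mul (h1_d b z w)).add ((h2_d a z w).mul (h2_d b z w))))
  refine HasDerivAt.congr_deriv this ?_
  simp only [zero_smul, add_zero, Jets.F1, Pi.add_apply, Pi.mul_apply, Pi.zero_apply]
  ring

theorem F1_d (w a b z t : E4) :
    HasDerivAt (fun s : ℝ => (JJ (z + s • t)).F1 ((z + s • t) 2) ((z + s • t) 3) w a b)
      ((JJ z).F2 (z 2) (z 3) t w a b) 0 := by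
  have := ((kap'_d w a b z t).neg.add
    ((ph'_d w z t).mul (((h1_d a z t).mul (h1_d b z t)).add ((h2_d a z t).mul (h2_d b z t))))).add
    ((ph_d z t).mul (((((h1'_d w a z t).mul (h1_d b z t)).add
      ((h1_d a z t).mul (h1'_d w b z t))).add ((h2'_d w a z t).mul (h2_d b z t))).add
      ((h2_d a z t).mul (h2'_d w b z t))))
  refine HasDerivAt.congr_deriv this ?_
  simp only [zero_smul, add_zero, Jets.F2, Pi.add_apply, Pi.mul_apply, Pi.zero_apply]
  ring

/-- the local metric -/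
def gl : Met := fun i j z => (JJ z).B (z 2) (z 3) (ee i) (ee j)

end Pool.Agent.helper65.Tor
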