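import Pool.Agent.helper65.Tor.Lin

set_option autoImplicit false

noncomputable section

namespace Pool.Agent.helper65.Tor

/-- four-linear function -/
structure Lin4 (S : (Fin 4 → ℝ) → (Fin 4 → ℝ) → (Fin 4 → ℝ) → (Fin 4 → ℝ) → ℝ) : Prop where
  t : ∀ t w a b, S t w a b = ∑ i, t i * S (ee i) w a b
  w : ∀ t w a b, S t w a b = ∑ i, w i * S t (ee i) a b
  a : ∀ t w a b, S t w a b = ∑ i, a i * S t w (ee i) b
  b : ∀ t w a b, S t w a b = ∑ i, b i * S t w a (ee i)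

theorem Lin4.eq {S : (Fin 4 → ℝ) → (Fin 4 → ℝ) → (Fin 4 → ℝ) → (Fin 4 → ℝ) → ℝ} (h : Lin4 S)
    (t w a b : Fin 4 → ℝ) :
    S t w a b = ∑ p, ∑ q, ∑ r, ∑ s, S (ee p) (ee q) (ee r) (ee s) * (t p * w q * a r * b s) := by
  rw [h.t]
  refine Finset.sum_congr rfl fun p _ => ?_
  rw [h.w, Finset.mul_sum]
  refine Finset.sum_congr rfl fun q _ => ?_
  rw [h.a, Finset.mul_sum, Finset.mul_sum]
  refine Finset.sum_congr rfl fun r _ => ?_
  rw [h.b, Finset.mul_sum, Finset.mul_sum, Finset.mul_sum]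
  refine Finset.sum_congr rfl fun s _ => ?_
  ring

/-- bilinear function of the first two arguments -/
theorem bil_eq {G : (Fin 4 → ℝ) → (Fin 4 → ℝ) → ℝ} (ha : ∀ a b, G a b = ∑ i, a i * G (ee i) b)
    (hb : ∀ a b, G a b = ∑ i, b i * G a (ee i)) (a b : Fin 4 → ℝ) :
    G a b = ∑ p, ∑ q, G (ee p) (ee q) * (a p * b q) := by
  rw [ha]
  refine Finset.sum_congr rfl fun p _ => ?_
  rw [hb, Finset.mul_sum]
  refine Finset.sum_congr rfl fun q _ => ?_
  ring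

/-- swap of the outer two sums -/
theorem sw (f : Fin 4 → Fin 4 → Fin 4 → Fin 4 → ℝ) :
    ∑ i, ∑ k, ∑ l, ∑ m, f i k l m = ∑ k, ∑ i, ∑ l, ∑ m, f i k l m := Finset.sum_comm
theorem sw' (f : Fin 4 → Fin 4 → Fin 4 → Fin 4 → ℝ) :
    ∑ i, ∑ k, ∑ l, ∑ m, f i k l m = ∑ i, ∑ l, ∑ k, ∑ m, f i k l m :=
  Finset.sum_congr rfl fun _ _ => Finset.sum_comm
theorem sw'' (f : Fin 4 → Fin 4 → Fin 4 → Fin 4 → ℝ) :
    ∑ i, ∑ k, ∑ l, ∑ m, f i k l m = ∑ i, ∑ k, ∑ m, ∑ l, f i k l m :=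
  Finset.sum_congr rfl fun _ _ => Finset.sum_congr rfl fun _ _ => Finset.sum_comm

theorem c1 (T : Fin 4 → Fin 4 → Fin 4 → Fin 4 → ℝ) (u v : Fin 4 → ℝ) :
    ∑ i, ∑ k, ∑ l, ∑ m, T l k i m * (u i * v k * u l * v m)
      = ∑ p, ∑ q, ∑ r, ∑ s, T p q r s * (u p * v q * u r * v s) := by
  refine (sw _).trans ((sw' _).trans ((sw _).trans ?_))
  refine Finset.sum_congr rfl fun p _ => Finset.sum_congr rfl fun q _ =>
    Finset.sum_congr rfl fun r _ => Finset.sum_congr rfl fun s _ => ?_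
  ring

theorem c2 (T : Fin 4 → Fin 4 → Fin 4 → Fin 4 → ℝ) (u v : Fin 4 → ℝ) :
    ∑ i, ∑ k, ∑ l, ∑ m, T m i k l * (u i * v k * u l * v m)
      = ∑ p, ∑ q, ∑ r, ∑ s, T p q r s * (v p * u q * v r * u s) := by
  refine (sw'' _).trans ((sw' _).trans ((sw _).trans ?_))
  refine Finset.sum_congr rfl fun p _ => Finset.sum_congr rfl fun q _ =>
    Finset.sum_congr rfl fun r _ => Finset.sum_congr rfl fun s _ => ?_
  ring

theorem c3 (T : Fin 4 → Fin 4 → Fin 4 → Fin 4 → ℝ) (u v : Fin 4 → ℝ) :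
    ∑ i, ∑ k, ∑ l, ∑ m, T m k i l * (u i * v k * u l * v m)
      = ∑ p, ∑ q, ∑ r, ∑ s, T p q r s * (v p * v q * u r * u s) := by
  refine (sw'' _).trans ((sw' _).trans ((sw _).trans ((sw' _).trans ?_)))
  refine Finset.sum_congr rfl fun p _ => Finset.sum_congr rfl fun q _ =>
    Finset.sum_congr rfl fun r _ => Finset.sum_congr rfl fun s _ => ?_
  ring

theorem c4 (T : Fin 4 → Fin 4 → Fin 4 → Fin 4 → ℝ) (u v : Fin 4 → ℝ) :
    ∑ i, ∑ k, ∑ l, ∑ m, T l i k m * (u i * v k * u l * v m)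
      = ∑ p, ∑ q, ∑ r, ∑ s, T p q r s * (u p * u q * v r * v s) := by
  refine (sw' _).trans ((sw _).trans ?_)
  refine Finset.sum_congr rfl fun p _ => Finset.sum_congr rfl fun q _ =>
    Finset.sum_congr rfl fun r _ => Finset.sum_congr rfl fun s _ => ?_
  ring

theorem d1 (A B : Fin 4 → Fin 4 → ℝ) (u v : Fin 4 → ℝ) :
    ∑ i, ∑ k, ∑ l, ∑ m, (A k l * B i m) * (u i * v k * u l * v m)
      = (∑ k, ∑ l, A k l * (v k * u l)) * (∑ i, ∑ m, B i m * (u i * v m)) := by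
  refine (sw _).trans ((sw' _).trans ?_)
  rw [Finset.sum_mul]
  refine Finset.sum_congr rfl fun k _ => ?_
  rw [Finset.sum_mul]
  refine Finset.sum_congr rfl fun l _ => ?_
  rw [Finset.mul_sum]
  refine Finset.sum_congr rfl fun i _ => ?_
  rw [Finset.mul_sum]
  refine Finset.sum_congr rfl fun m _ => ?_
  ring

theorem d2 (A B : Fin 4 → Fin 4 → ℝ) (u v : Fin 4 → ℝ) :
    ∑ i, ∑ k, ∑ l, ∑ m, (A k m * B i l) * (u i * v k * u l * v m)
      = (∑ k, ∑ m, A k m * (v k * v m)) * (∑ i, ∑ l, B i l * (u i * u l)) := by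
  refine (sw _).trans ((sw'' _).trans ((sw' _).trans ?_))
  rw [Finset.sum_mul]
  refine Finset.sum_congr rfl fun k _ => ?_
  rw [Finset.sum_mul]
  refine Finset.sum_congr rfl fun m _ => ?_
  rw [Finset.mul_sum]
  refine Finset.sum_congr rfl fun i _ => ?_
  rw [Finset.mul_sum]
  refine Finset.sum_congr rfl fun l _ => ?_
  ring

theorem out1 (g : Fin 4 → Fin 4 → Fin 4 → Fin 4 → Fin 4 → ℝ) :
    ∑ i, ∑ k, ∑ l, ∑ m, ∑ a, g i k l m a = ∑ a, ∑ i, ∑ k, ∑ l, ∑ m, g i k l m a := by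
  calc ∑ i, ∑ k, ∑ l, ∑ m, ∑ a, g i k l m a
      = ∑ i, ∑ k, ∑ l, ∑ a, ∑ m, g i k l m a :=
        Finset.sum_congr rfl fun i _ => Finset.sum_congr rfl fun k _ =>
          Finset.sum_congr rfl fun l _ => Finset.sum_comm
    _ = ∑ i, ∑ k, ∑ a, ∑ l, ∑ m, g i k l m a :=
        Finset.sum_congr rfl fun i _ => Finset.sum_congr rfl fun k _ => Finset.sum_comm
    _ = ∑ i, ∑ a, ∑ k, ∑ l, ∑ m, g i k l m a :=
        Finset.sum_congr rfl fun i _ => Finset.sum_comm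
    _ = ∑ a, ∑ i, ∑ k, ∑ l, ∑ m, g i k l m a := Finset.sum_comm

theorem out2 (g : Fin 4 → Fin 4 → Fin 4 → Fin 4 → Fin 4 → Fin 4 → ℝ) :
    ∑ i, ∑ k, ∑ l, ∑ m, ∑ a, ∑ b, g i k l m a b
      = ∑ a, ∑ b, ∑ i, ∑ k, ∑ l, ∑ m, g i k l m a b := by
  rw [out1 (fun i k l m a => ∑ b, g i k l m a b)]
  exact Finset.sum_congr rfl fun a _ => out1 (fun i k l m b => g i k l m a b)

theorem quad_part (N : Matrix (Fin 4) (Fin 4) ℝ) (A : Fin 4 → Fin 4 → Fin 4 → ℝ)
    (u v : Fin 4 → ℝ) :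
    ∑ i, ∑ k, ∑ l, ∑ m, (∑ a, ∑ b, N a b * (A k l a * A i m b - A k m a * A i l b))
        * (u i * v k * u l * v m)
      = ∑ a, ∑ b, N a b * ((∑ k, ∑ l, A k l a * (v k * u l)) * (∑ i, ∑ m, A i m b * (u i * v m))
        - (∑ k, ∑ m, A k m a * (v k * v m)) * (∑ i, ∑ l, A i l b * (u i * u l))) := by
  have e1 : ∀ i k l m : Fin 4,
      (∑ a, ∑ b, N a b * (A k l a * A i m b - A k m a * A i l b)) * (u i * v k * u l * v m)
      = ∑ a, ∑ b, (N a b * (A k l a * A i m b - A k m a * A i l b)) * (u i * v k * u l * v m) := by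
    intro i k l m
    rw [Finset.sum_mul]
    exact Finset.sum_congr rfl fun a _ => by rw [Finset.sum_mul]
  simp only [e1]
  rw [out2 (fun i k l m a b =>
    (N a b * (A k l a * A i m b - A k m a * A i l b)) * (u i * v k * u l * v m))]
  refine Finset.sum_congr rfl fun a _ => Finset.sum_congr rfl fun b _ => ?_
  rw [← d1 (fun k l => A k l a) (fun i m => A i m b) u v,
    ← d2 (fun k m => A k m a) (fun i l => A i l b) u v]
  simp only [← Finset.sum_sub_distrib, Finset.mul_sum]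
  refine Finset.sum_congr rfl fun i _ => Finset.sum_congr rfl fun k _ =>
    Finset.sum_congr rfl fun l _ => Finset.sum_congr rfl fun m _ => ?_
  ring

/-- the contraction of the Riemann tensor -/
theorem Num_formula (g : Met) (x : E4)
    {S : (Fin 4 → ℝ) → (Fin 4 → ℝ) → (Fin 4 → ℝ) → (Fin 4 → ℝ) → ℝ} (hS : Lin4 S)
    {G : (Fin 4 → ℝ) → (Fin 4 → ℝ) → (Fin 4 → ℝ) → ℝ}
    (hGa : ∀ a b w, G a b w = ∑ i, a i * G (ee i) b w)
    (hGb : ∀ a b w, G a b w = ∑ i, b i * G a (ee i) w)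
    (h2 : ∀ i k l m, fderiv ℝ (fun y => fderiv ℝ (g i m) y (Pi.single k 1)) x (Pi.single l 1)
      = S (ee l) (ee k) (ee i) (ee m))
    (h1 : ∀ a k l, Gam g a k l x = G (ee k) (ee l) (ee a)) (u v : E4) :
    Num g x u v = (S u v u v + S v u v u - S v v u u - S u u v v) / 2
      + ∑ a, ∑ b, (Matrix.of fun p q => g p q x)⁻¹ a b *
        (G v u (ee a) * G u v (ee b) - G v v (ee a) * G u u (ee b)) := by
  unfold Num Riem
  simp only [h2, h1]
  set N := (Matrix.of fun p q => g p q x)⁻¹ with hN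
  have e : ∀ i k l m : Fin 4,
      ((S (ee l) (ee k) (ee i) (ee m) + S (ee m) (ee i) (ee k) (ee l)
        - S (ee m) (ee k) (ee i) (ee l) - S (ee l) (ee i) (ee k) (ee m)) / 2
        + ∑ a, ∑ b, N a b * (G (ee k) (ee l) (ee a) * G (ee i) (ee m) (ee b)
          - G (ee k) (ee m) (ee a) * G (ee i) (ee l) (ee b))) * u i * v k * u l * v m
      = (1 / 2) * (S (ee l) (ee k) (ee i) (ee m) * (u i * v k * u l * v m))
        + (1 / 2) * (S (ee m) (ee i) (ee k) (ee l) * (u i * v k * u l * v m))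
        - (1 / 2) * (S (ee m) (ee k) (ee i) (ee l) * (u i * v k * u l * v m))
        - (1 / 2) * (S (ee l) (ee i) (ee k) (ee m) * (u i * v k * u l * v m))
        + (∑ a, ∑ b, N a b * (G (ee k) (ee l) (ee a) * G (ee i) (ee m) (ee b)
          - G (ee k) (ee m) (ee a) * G (ee i) (ee l) (ee b))) * (u i * v k * u l * v m) := by
    intro i k l m
    ring
  simp only [e]
  simp only [Finset.sum_add_distrib, Finset.sum_sub_distrib, ← Finset.mul_sum]
  rw [c1 (fun p q r s => S (ee p) (ee q) (ee r) (ee s)),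
    c2 (fun p q r s => S (ee p) (ee q) (ee r) (ee s)),
    c3 (fun p q r s => S (ee p) (ee q) (ee r) (ee s)),
    c4 (fun p q r s => S (ee p) (ee q) (ee r) (ee s)),
    ← hS.eq, ← hS.eq, ← hS.eq, ← hS.eq]
  have hq := quad_part N (fun k l a => G (ee k) (ee l) (ee a)) u v
  have hb : ∀ (a b : Fin 4 → ℝ) (w : Fin 4 → ℝ),
      ∑ p, ∑ q, G (ee p) (ee q) w * (a p * b q) = G a b w := fun a b w =>
    (bil_eq (G := fun a b => G a b w) (fun a b => hGa a b w) (fun a b => hGb a b w) a b).symm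
  simp only [hb] at hq
  simp only [Finset.sum_sub_distrib, mul_sub, sub_mul] at hq ⊢
  rw [hq]
  ring

end Pool.Agent.helper65.Tor
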