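import Mathlib

set_option autoImplicit false

/-!
Second-order data for MP_d63641_gt (flat torus in a positively curved `T^2 x D^2`).

A trigonometric polynomial in `(x, y)` is a list of `(k, l, a, b)`, standing for
`a cos (k x + l y) + b sin (k x + l y)`; all coefficients carry the common denominator `20000`.
-/

namespace Pool.Agent.helper65.Tor

/-- trigonometric polynomials with integer coefficients -/
abbrev TP := List (ℤ × ℤ × ℤ × ℤ)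

/-- value (with the common denominator 20000) -/
noncomputable def ev (f : TP) (x y : ℝ) : ℝ :=
  (f.map fun t => ((t.2.2.1 : ℝ) * Real.cos (t.1 * x + t.2.1 * y)
    + (t.2.2.2 : ℝ) * Real.sin (t.1 * x + t.2.1 * y)) / 20000).sum

/-- derivative in `x` -/
def dX (f : TP) : TP := f.map fun t => (t.1, t.2.1, t.1 * t.2.2.2, - (t.1 * t.2.2.1))

/-- derivative in `y` -/
def dY (f : TP) : TP := f.map fun t => (t.1, t.2.1, t.2.1 * t.2.2.2, - (t.2.1 * t.2.2.1))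

/-- 2-jet of a function of two variables -/
structure Jet where
  v : ℝ
  x : ℝ
  y : ℝ
  xx : ℝ
  xy : ℝ
  yy : ℝ

/-- the 2-jet of a trigonometric polynomial -/
noncomputable def jet (f : TP) (x y : ℝ) : Jet :=
  ⟨ev f x y, ev (dX f) x y, ev (dY f) x y, ev (dX (dX f)) x y, ev (dY (dX f)) x y,
    ev (dY (dY f)) x y⟩

def dS0 : TP := [(0, 0, 13174, 0), (0, 2, -132, 0), (1, -1, 487, 0), (1, 1, -1223, 0), (2, 0, -1360, 0)]
def dSr : TP := [(0, 0, 11132, 0), (0, 2, -286, 0), (1, -1, 627, 0), (1, 1, -843, 0), (2, 0, -1274, 0)]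
def dSi : TP := [(0, 1, 0, 774), (0, 3, 0, 14), (1, -2, 0, 11), (1, 0, 0, 2454), (1, 2, 0, 11), (2, -1, 0, 31), (2, 1, 0, 115), (3, 0, 0, -142)]
def dT0 : TP := [(0, 0, 13174, 0), (0, 2, -1360, 0), (1, -1, 487, 0), (1, 1, -1223, 0), (2, 0, -132, 0)]
def dTr : TP := [(0, 0, -11132, 0), (0, 2, 1274, 0), (1, -1, -627, 0), (1, 1, 843, 0), (2, 0, 286, 0)]
def dTi : TP := [(0, 1, 0, 2454), (0, 3, 0, -142), (1, -2, 0, -31), (1, 0, 0, 774), (1, 2, 0, 115), (2, -1, 0, -11), (2, 1, 0, 11), (3, 0, 0, 14)]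
def dK0 : TP := [(0, 0, 6786, 0), (0, 2, -128, 0), (1, -1, -26, 0), (1, 1, -984, 0), (2, 0, -128, 0)]
def dKr : TP := [(0, 2, -80, 0), (2, 0, 80, 0)]
def dKi : TP := [(0, 1, 0, 3688), (0, 3, 0, -42), (1, -2, 0, -19), (1, 0, 0, 3688), (1, 2, 0, 19), (2, -1, 0, 19), (2, 1, 0, 19), (3, 0, 0, -42)]
def dA1 : TP := [(0, 1, -2226, 0)]
def dA2 : TP := [(1, 0, 2226, 0)]

/-- the eleven jets of the data at a point -/
structure Jets where
  s0 : Jet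
  sr : Jet
  si : Jet
  t0 : Jet
  tr : Jet
  ti : Jet
  k0 : Jet
  kr : Jet
  ki : Jet
  a1 : Jet
  a2 : Jet

/-- the jets of the explicit data -/
noncomputable def djets (x y : ℝ) : Jets :=
  ⟨jet dS0 x y, jet dSr x y, jet dSi x y, jet dT0 x y, jet dTr x y, jet dTi x y,
    jet dK0 x y, jet dKr x y, jet dKi x y, jet dA1 x y, jet dA2 x y⟩

namespace Jets

variable (J : Jets)

noncomputable def Om : ℝ := J.a2.x - J.a1.y
noncomputable def O1 : ℝ := J.a2.xx - J.a1.xy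
noncomputable def O2 : ℝ := J.a2.xy - J.a1.yy
-- covariant first derivatives: scalar part 0, spin-2 part (r, i)
noncomputable def S2r : ℝ := J.sr.y - 2 * J.a2.v * J.si.v
noncomputable def S2i : ℝ := J.si.y + 2 * J.a2.v * J.sr.v
noncomputable def K1r : ℝ := J.kr.x - 2 * J.a1.v * J.ki.v
noncomputable def K1i : ℝ := J.ki.x + 2 * J.a1.v * J.kr.v
noncomputable def T1r : ℝ := J.tr.x - 2 * J.a1.v * J.ti.v
noncomputable def T1i : ℝ := J.ti.x + 2 * J.a1.v * J.tr.v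
noncomputable def K2r : ℝ := J.kr.y - 2 * J.a2.v * J.ki.v
noncomputable def K2i : ℝ := J.ki.y + 2 * J.a2.v * J.kr.v
noncomputable def S22r : ℝ := J.sr.yy - 4 * J.a2.v * J.si.y - 2 * J.a2.y * J.si.v - 4 * J.a2.v ^ 2 * J.sr.v
noncomputable def S22i : ℝ := J.si.yy + 4 * J.a2.v * J.sr.y + 2 * J.a2.y * J.sr.v - 4 * J.a2.v ^ 2 * J.si.v
noncomputable def T11r : ℝ := J.tr.xx - 4 * J.a1.v * J.ti.x - 2 * J.a1.x * J.ti.v - 4 * J.a1.v ^ 2 * J.tr.v
noncomputable def T11i : ℝ := J.ti.xx + 4 * J.a1.v * J.tr.x + 2 * J.a1.x * J.tr.v - 4 * J.a1.v ^ 2 * J.ti.v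
noncomputable def K12r : ℝ := J.kr.xy - 2 * (J.a2.v * J.ki.x + J.a1.v * J.ki.y) - (J.a2.x + J.a1.y) * J.ki.v
    - 4 * J.a1.v * J.a2.v * J.kr.v
noncomputable def K12i : ℝ := J.ki.xy + 2 * (J.a2.v * J.kr.x + J.a1.v * J.kr.y) + (J.a2.x + J.a1.y) * J.kr.v
    - 4 * J.a1.v * J.a2.v * J.ki.v
-- VV block: scalar part, r part, i part
noncomputable def VV0 : ℝ := -(3/4) * J.Om ^ 2 + (J.s0.yy + J.t0.xx - 2 * J.k0.xy) / 2
    - (J.s0.v * J.t0.v + J.sr.v * J.tr.v + J.si.v * J.ti.v)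
    + (J.k0.v ^ 2 + J.kr.v ^ 2 + J.ki.v ^ 2)
noncomputable def VVr : ℝ := (J.S22r + J.T11r - 2 * J.K12r) / 2 - (J.s0.v * J.tr.v + J.t0.v * J.sr.v)
    + 2 * J.k0.v * J.kr.v
noncomputable def VVi : ℝ := (J.S22i + J.T11i - 2 * J.K12i) / 2 - (J.s0.v * J.ti.v + J.t0.v * J.si.v)
    + 2 * J.k0.v * J.ki.v

/-- the 21 entries `P i j`, `j ≤ i`, of the symmetric `6 x 6` matrix; variables
`w 0, w 1 = V`, `w 2, w 3 = Z_1`, `w 4, w 5 = Z_2`. -/
noncomputable def P00 : ℝ := J.VV0 + J.VVr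
noncomputable def P10 : ℝ := J.VVi
noncomputable def P11 : ℝ := J.VV0 - J.VVr
noncomputable def P20 : ℝ := (J.t0.x - J.k0.y) + (J.T1r - J.K2r)
noncomputable def P21 : ℝ := (J.T1i - J.K2i) - J.O2 / 2
noncomputable def P30 : ℝ := (J.T1i - J.K2i) + J.O2 / 2
noncomputable def P31 : ℝ := (J.t0.x - J.k0.y) - (J.T1r - J.K2r)
noncomputable def P22 : ℝ := J.t0.v + J.tr.v
noncomputable def P32 : ℝ := J.ti.v
noncomputable def P33 : ℝ := J.t0.v - J.tr.v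
noncomputable def P40 : ℝ := (J.s0.y - J.k0.x) + (J.S2r - J.K1r)
noncomputable def P41 : ℝ := (J.S2i - J.K1i) + J.O1 / 2
noncomputable def P50 : ℝ := (J.S2i - J.K1i) - J.O1 / 2
noncomputable def P51 : ℝ := (J.s0.y - J.k0.x) - (J.S2r - J.K1r)
noncomputable def P42 : ℝ := -(J.k0.v + J.kr.v)
noncomputable def P43 : ℝ := 3 / 2 * J.Om - J.ki.v
noncomputable def P52 : ℝ := -(3 / 2 * J.Om) - J.ki.v
noncomputable def P53 : ℝ := -(J.k0.v - J.kr.v)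
noncomputable def P44 : ℝ := J.s0.v + J.sr.v
noncomputable def P54 : ℝ := J.si.v
noncomputable def P55 : ℝ := J.s0.v - J.sr.v

/-- the quadratic form in six variables -/
noncomputable def Pq (w0 w1 w2 w3 w4 w5 : ℝ) : ℝ :=
  J.P00 * w0 ^ 2 + J.P11 * w1 ^ 2 + J.P22 * w2 ^ 2 + J.P33 * w3 ^ 2 + J.P44 * w4 ^ 2
    + J.P55 * w5 ^ 2
  + 2 * (J.P10 * w1 * w0 + J.P20 * w2 * w0 + J.P21 * w2 * w1 + J.P30 * w3 * w0
    + J.P31 * w3 * w1 + J.P32 * w3 * w2 + J.P40 * w4 * w0 + J.P41 * w4 * w1 + J.P42 * w4 * w2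
    + J.P43 * w4 * w3 + J.P50 * w5 * w0 + J.P51 * w5 * w1 + J.P52 * w5 * w2 + J.P53 * w5 * w3
    + J.P54 * w5 * w4)

end Jets

/-- TO PROVE (part II): the form is uniformly positive. -/
def CertStatement : Prop :=
  ∀ x y w0 w1 w2 w3 w4 w5 : ℝ,
    (1 / 1000) * (w0 ^ 2 + w1 ^ 2 + w2 ^ 2 + w3 ^ 2 + w4 ^ 2 + w5 ^ 2)
      ≤ (djets x y).Pq w0 w1 w2 w3 w4 w5

end Pool.Agent.helper65.Tor
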