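import Pool.Agent.helper65.Tor.Alg2

set_option autoImplicit false

noncomputable section

namespace Pool.Agent.helper65.Tor

theorem bA {x y a b : ℝ} (hx : |x| ≤ a) (hy : |y| ≤ b) : |x + y| ≤ a + b :=
  (abs_add_le x y).trans (add_le_add hx hy)
theorem bS {x y a b : ℝ} (hx : |x| ≤ a) (hy : |y| ≤ b) : |x - y| ≤ a + b :=
  (abs_sub x y).trans (add_le_add hx hy)
theorem bM {x y a b : ℝ} (hx : |x| ≤ a) (hy : |y| ≤ b) : |x * y| ≤ a * b := by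
  rw [abs_mul]
  exact mul_le_mul hx hy (abs_nonneg _) ((abs_nonneg _).trans hx)
theorem bN {x a : ℝ} (hx : |x| ≤ a) : |-x| ≤ a := by rwa [abs_neg]
theorem bQ {x a : ℝ} (hx : |x| ≤ a) : |x ^ 2| ≤ a ^ 2 := by
  rw [abs_pow]
  exact pow_le_pow_left₀ (abs_nonneg _) hx 2
theorem bK (k : ℝ) (hk : 0 ≤ k) : |k| ≤ k := by rw [abs_of_nonneg hk]

theorem gau_bound {c11 c12 c22 m1x m1y m2x m2y d11 d12 d22 n1x n1y n2x n2y p q11 q12 q21 q22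
    c m t : ℝ}
    (h1 : |c11| ≤ c) (h2 : |c12| ≤ c) (h3 : |c22| ≤ c) (h4 : |d11| ≤ c) (h5 : |d12| ≤ c)
    (h6 : |d22| ≤ c) (g1 : |m1x| ≤ m) (g2 : |m1y| ≤ m) (g3 : |m2x| ≤ m) (g4 : |m2y| ≤ m)
    (g5 : |n1x| ≤ m) (g6 : |n1y| ≤ m) (g7 : |n2x| ≤ m) (g8 : |n2y| ≤ m)
    (hp : |p| ≤ t) (k1 : |q11| ≤ t) (k2 : |q12| ≤ t) (k3 : |q21| ≤ t) (k4 : |q22| ≤ t) :
    |gau c11 c12 c22 m1x m1y m2x m2y d11 d12 d22 n1x n1y n2x n2y p q11 q12 q21 q22|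
      ≤ (4 * c ^ 2 + 32 * c * m + 64 * m ^ 2) * t ^ 2 := by
  have h := bS (bA (bS (bM (bN (bQ hp)) (bS (bA (bM h1 h6) (bM h3 h4))
      (bM (bM (bK 2 (by norm_num)) h2) h5)))
    (bM (bM (bK 2 (by norm_num)) hp)
      (bA (bS (bS (bA (bM h1 (bA (bM g7 k1) (bM g8 k2))) (bM h2 (bA (bM g7 k3) (bM g8 k4))))
          (bM h2 (bA (bM g5 k1) (bM g6 k2)))) (bM h3 (bA (bM g5 k3) (bM g6 k4))))
        (bS (bS (bA (bM h4 (bA (bM g3 k1) (bM g4 k2))) (bM h5 (bA (bM g3 k3) (bM g4 k4))))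
          (bM h5 (bA (bM g1 k1) (bM g2 k2)))) (bM h6 (bA (bM g1 k3) (bM g2 k4)))))))
    (bM (bM (bK 2 (by norm_num)) (bA (bA (bA (bM g1 k1) (bM g2 k2)) (bM g3 k3)) (bM g4 k4)))
      (bA (bA (bA (bM g5 k1) (bM g6 k2)) (bM g7 k3)) (bM g8 k4))))
    (bM (bM (bK 4 (by norm_num)) (bS (bM k1 k4) (bM k2 k3)))
      (bS (bS (bM g1 g8) (bM g2 g7)) (bS (bM g3 g6) (bM g4 g5))))
  unfold gau
  refine h.trans (le_of_eq ?_)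
  ring

/-- bounds for a jet -/
structure Jet.Bd (f : Jet) (C : ℝ) : Prop where
  v : |f.v| ≤ C
  x : |f.x| ≤ C
  y : |f.y| ≤ C
  xx : |f.xx| ≤ C
  xy : |f.xy| ≤ C
  yy : |f.yy| ≤ C

/-- bounds for all jets -/
structure Jets.Bd (J : Jets) (C : ℝ) : Prop where
  s0 : J.s0.Bd C
  sr : J.sr.Bd C
  si : J.si.Bd C
  t0 : J.t0.Bd C
  tr : J.tr.Bd C
  ti : J.ti.Bd C
  k0 : J.k0.Bd C
  kr : J.kr.Bd C
  ki : J.ki.Bd C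
  a1 : J.a1.Bd C
  a2 : J.a2.Bd C

theorem qf_bound {m0 mr mi y1 y2 c : ℝ} (h0 : |m0| ≤ c) (hr : |mr| ≤ c) (hi : |mi| ≤ c)
    (e1 : |y1| ≤ 1) (e2 : |y2| ≤ 1) : |qf m0 mr mi y1 y2| ≤ 6 * c := by
  have h := bA (bA (bM (bA h0 hr) (bQ e1)) (bM (bM (bK 2 (by norm_num)) hi) (bM e1 e2)))
    (bM (bS h0 hr) (bQ e2))
  unfold qf
  refine h.trans (le_of_eq ?_)
  ring

theorem lin_bound {a b y1 y2 c : ℝ} (ha : |a| ≤ c) (hb : |b| ≤ c)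
    (e1 : |y1| ≤ 1) (e2 : |y2| ≤ 1) : |a * y1 + b * y2| ≤ 2 * c := by
  refine (bA (bM ha e1) (bM hb e2)).trans (le_of_eq ?_)
  ring

theorem qf_scale (m0 mr mi s e1 e2 : ℝ) :
    qf m0 mr mi (s * e1) (s * e2) = s ^ 2 * qf m0 mr mi e1 e2 := by
  unfold qf; ring

theorem gau_scale (c11 c12 c22 m1x m1y m2x m2y d11 d12 d22 n1x n1y n2x n2y p q11 q12 q21 q22
    s : ℝ) :
    gau (s ^ 2 * c11) (s ^ 2 * c12) (s ^ 2 * c22) (s * m1x) (s * m1y) (s * m2x) (s * m2y)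
      (s ^ 2 * d11) (s ^ 2 * d12) (s ^ 2 * d22) (s * n1x) (s * n1y) (s * n2x) (s * n2y)
      p q11 q12 q21 q22
    = s ^ 2 * gau c11 c12 c22 m1x m1y m2x m2y d11 d12 d22 n1x n1y n2x n2y (p * s)
      q11 q12 q21 q22 := by
  unfold gau; ring

namespace Jets

variable (J : Jets) (y1 y2 : ℝ)

def hd : ℝ := (1 - qf J.s0.v J.sr.v J.si.v y1 y2) * (1 - qf J.t0.v J.tr.v J.ti.v y1 y2)
  - qf J.k0.v J.kr.v J.ki.v y1 y2 ^ 2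
def g11 : ℝ := (1 - qf J.t0.v J.tr.v J.ti.v y1 y2) / J.hd y1 y2
def g22 : ℝ := (1 - qf J.s0.v J.sr.v J.si.v y1 y2) / J.hd y1 y2
def g12 : ℝ := qf J.k0.v J.kr.v J.ki.v y1 y2 / J.hd y1 y2

/-- vertical Christoffel components -/
def V1 (a b : Fin 4 → ℝ) : ℝ := J.G3 y1 y2 a b ![0, 0, 1, 0]
def V2 (a b : Fin 4 → ℝ) : ℝ := J.G3 y1 y2 a b ![0, 0, 0, 1]

/-- the curvature numerator, algebraic form -/
def Tot (u v : Fin 4 → ℝ) : ℝ :=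
  (J.F2 y1 y2 u v u v + J.F2 y1 y2 v u v u - J.F2 y1 y2 v v u u - J.F2 y1 y2 u u v v) / 2
  + 1 / ph y1 y2 * ((J.V1 y1 y2 u v ^ 2 + J.V2 y1 y2 u v ^ 2)
      - (J.V1 y1 y2 u u * J.V1 y1 y2 v v + J.V2 y1 y2 u u * J.V2 y1 y2 v v))
  + (J.g11 y1 y2 * (J.GX1 y1 y2 u v ^ 2 - J.GX1 y1 y2 u u * J.GX1 y1 y2 v v)
    + J.g12 y1 y2 * (2 * J.GX1 y1 y2 u v * J.GX2 y1 y2 u v
        - J.GX1 y1 y2 u u * J.GX2 y1 y2 v v - J.GX2 y1 y2 u u * J.GX1 y1 y2 v v)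
    + J.g22 y1 y2 * (J.GX2 y1 y2 u v ^ 2 - J.GX2 y1 y2 u u * J.GX2 y1 y2 v v))

/-- Gauss terms in plane coordinates (`a`, `b` in `{1, 2}`) -/
def gau11 (p q11 q12 q21 q22 : ℝ) : ℝ :=
  gau (-(J.nS1 y1 y2) / 2) (-(J.nS2 y1 y2) / 2) (-(2 * J.nK2 y1 y2 - J.nT1 y1 y2) / 2)
      (-(J.Sy1 y1 y2)) (-(J.Sy2 y1 y2))
      (-(J.Kv1 y1 y2) + ph y1 y2 * J.Om * y2 / 2) (-(J.Kv2 y1 y2) - ph y1 y2 * J.Om * y1 / 2)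
      (-(J.nS1 y1 y2) / 2) (-(J.nS2 y1 y2) / 2) (-(2 * J.nK2 y1 y2 - J.nT1 y1 y2) / 2)
      (-(J.Sy1 y1 y2)) (-(J.Sy2 y1 y2))
      (-(J.Kv1 y1 y2) + ph y1 y2 * J.Om * y2 / 2) (-(J.Kv2 y1 y2) - ph y1 y2 * J.Om * y1 / 2)
      p q11 q12 q21 q22
def gau12 (p q11 q12 q21 q22 : ℝ) : ℝ :=
  gau (-(J.nS1 y1 y2) / 2) (-(J.nS2 y1 y2) / 2) (-(2 * J.nK2 y1 y2 - J.nT1 y1 y2) / 2)
      (-(J.Sy1 y1 y2)) (-(J.Sy2 y1 y2))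
      (-(J.Kv1 y1 y2) + ph y1 y2 * J.Om * y2 / 2) (-(J.Kv2 y1 y2) - ph y1 y2 * J.Om * y1 / 2)
      (-(2 * J.nK1 y1 y2 - J.nS2 y1 y2) / 2) (-(J.nT1 y1 y2) / 2) (-(J.nT2 y1 y2) / 2)
      (-(J.Kv1 y1 y2) - ph y1 y2 * J.Om * y2 / 2) (-(J.Kv2 y1 y2) + ph y1 y2 * J.Om * y1 / 2)
      (-(J.Ty1 y1 y2)) (-(J.Ty2 y1 y2))
      p q11 q12 q21 q22
def gau22 (p q11 q12 q21 q22 : ℝ) : ℝ :=
  gau (-(2 * J.nK1 y1 y2 - J.nS2 y1 y2) / 2) (-(J.nT1 y1 y2) / 2) (-(J.nT2 y1 y2) / 2)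
      (-(J.Kv1 y1 y2) - ph y1 y2 * J.Om * y2 / 2) (-(J.Kv2 y1 y2) + ph y1 y2 * J.Om * y1 / 2)
      (-(J.Ty1 y1 y2)) (-(J.Ty2 y1 y2))
      (-(2 * J.nK1 y1 y2 - J.nS2 y1 y2) / 2) (-(J.nT1 y1 y2) / 2) (-(J.nT2 y1 y2) / 2)
      (-(J.Kv1 y1 y2) - ph y1 y2 * J.Om * y2 / 2) (-(J.Kv2 y1 y2) + ph y1 y2 * J.Om * y1 / 2)
      (-(J.Ty1 y1 y2)) (-(J.Ty2 y1 y2))
      p q11 q12 q21 q22

theorem Tot_eq (hph : ph y1 y2 ≠ 0) (u v : Fin 4 → ℝ) :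
    J.Tot y1 y2 u v = J.Main y1 y2 u v + 2 * J.rr y1 y2 u v ^ 2
      + 2 * (1 / ph y1 y2) * (y1 ^ 2 + y2 ^ 2) * J.rr y1 y2 u v ^ 2
      + ((1 / ph y1 y2 - 1) * (pp u v ^ 2 * J.ric y1 y2)
        + (ph y1 y2 - 1) * (-3 * J.Om * (J.q11 y2 u v * J.q22 y1 u v - J.q12 y1 u v * J.q21 y2 u v)
          - pp u v * (J.O1 * (-y2 * J.q11 y2 u v + y1 * J.q12 y1 u v)
            + J.O2 * (-y2 * J.q21 y2 u v + y1 * J.q22 y1 u v))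
          - 3 / 4 * J.Om ^ 2 * pp u v ^ 2 * (y1 ^ 2 + y2 ^ 2))
        + 3 * J.Om * (y1 ^ 2 + y2 ^ 2)
          * (J.q11 y2 u v * J.q22 y1 u v - J.q12 y1 u v * J.q21 y2 u v)
        + 1 / ph y1 y2 * J.cross y1 y2 (J.q11 y2 u v) (J.q12 y1 u v) (J.q21 y2 u v) (J.q22 y1 u v)
        + (J.g11 y1 y2 / 2 * J.gau11 y1 y2 (pp u v)
              (J.q11 y2 u v) (J.q12 y1 u v) (J.q21 y2 u v) (J.q22 y1 u v)
          + J.g12 y1 y2 * J.gau12 y1 y2 (pp u v)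
              (J.q11 y2 u v) (J.q12 y1 u v) (J.q21 y2 u v) (J.q22 y1 u v)
          + J.g22 y1 y2 / 2 * J.gau22 y1 y2 (pp u v)
              (J.q11 y2 u v) (J.q12 y1 u v) (J.q21 y2 u v) (J.q22 y1 u v))) := by
  have hbig := J.big y1 y2 u v
  have hXX := J.XX y1 y2 u v
  have e11 : J.gau11 y1 y2 (pp u v) (J.q11 y2 u v) (J.q12 y1 u v) (J.q21 y2 u v) (J.q22 y1 u v)
      = 2 * (J.GX1 y1 y2 u v ^ 2 - J.GX1 y1 y2 u u * J.GX1 y1 y2 v v) := by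
    rw [GX1_eq, GX1_eq, GX1_eq]
    simp only [gau11, pp, q11, q12, q21, q22]
    rw [← gam_gau]
    ring
  have e12 : J.gau12 y1 y2 (pp u v) (J.q11 y2 u v) (J.q12 y1 u v) (J.q21 y2 u v) (J.q22 y1 u v)
      = 2 * J.GX1 y1 y2 u v * J.GX2 y1 y2 u v
        - J.GX1 y1 y2 u u * J.GX2 y1 y2 v v - J.GX2 y1 y2 u u * J.GX1 y1 y2 v v := by
    rw [GX1_eq, GX1_eq, GX1_eq, GX2_eq, GX2_eq, GX2_eq]
    simp only [gau12, pp, q11, q12, q21, q22]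
    rw [← gam_gau]
  have e22 : J.gau22 y1 y2 (pp u v) (J.q11 y2 u v) (J.q12 y1 u v) (J.q21 y2 u v) (J.q22 y1 u v)
      = 2 * (J.GX2 y1 y2 u v ^ 2 - J.GX2 y1 y2 u u * J.GX2 y1 y2 v v) := by
    rw [GX2_eq, GX2_eq, GX2_eq]
    simp only [gau22, pp, q11, q12, q21, q22]
    rw [← gam_gau]
    ring
  rw [e11, e12, e22]
  simp only [Tot, V1, V2, G3_vert1, G3_vert2]
  generalize J.X1 y1 y2 u v = x1 at *
  generalize J.X2 y1 y2 u v = x2 at *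
  generalize J.X1 y1 y2 u u = x3 at *
  generalize J.X2 y1 y2 u u = x4 at *
  generalize J.X1 y1 y2 v v = x5 at *
  generalize J.X2 y1 y2 v v = x6 at *
  generalize J.W1 y1 y2 u v = w1 at *
  generalize J.W2 y1 y2 u v = w2 at *
  generalize J.W1 y1 y2 u u = w3 at *
  generalize J.W2 y1 y2 u u = w4 at *
  generalize J.W1 y1 y2 v v = w5 at *
  generalize J.W2 y1 y2 v v = w6 at *
  generalize ph y1 y2 = f at *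
  have hf : 1 / f * f = 1 := by field_simp
  generalize 1 / f = g at *
  linear_combination hbig + g * hXX
    + (2 * (x1 * w1 + x2 * w2) - (x3 * w5 + x4 * w6) - (x5 * w3 + x6 * w4)
      + f * (w1 ^ 2 + w2 ^ 2 - w3 * w5 - w4 * w6)) * hf

end Jets

end Pool.Agent.helper65.Tor
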