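import Pool.Agent.helper65.Tor.Est

set_option autoImplicit false

noncomputable section

namespace Pool.Agent.helper65.Tor

namespace Jets

variable (J : Jets)

theorem nS1_scale (s e1 e2 : ℝ) : J.nS1 (s * e1) (s * e2) = s ^ 2 * J.nS1 e1 e2 := qf_scale ..
theorem nS2_scale (s e1 e2 : ℝ) : J.nS2 (s * e1) (s * e2) = s ^ 2 * J.nS2 e1 e2 := qf_scale ..
theorem nK1_scale (s e1 e2 : ℝ) : J.nK1 (s * e1) (s * e2) = s ^ 2 * J.nK1 e1 e2 := qf_scale ..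
theorem nK2_scale (s e1 e2 : ℝ) : J.nK2 (s * e1) (s * e2) = s ^ 2 * J.nK2 e1 e2 := qf_scale ..
theorem nT1_scale (s e1 e2 : ℝ) : J.nT1 (s * e1) (s * e2) = s ^ 2 * J.nT1 e1 e2 := qf_scale ..
theorem nT2_scale (s e1 e2 : ℝ) : J.nT2 (s * e1) (s * e2) = s ^ 2 * J.nT2 e1 e2 := qf_scale ..
theorem Sy1_scale (s e1 e2 : ℝ) : J.Sy1 (s * e1) (s * e2) = s * J.Sy1 e1 e2 := by
  unfold Sy1; ring
theorem Sy2_scale (s e1 e2 : ℝ) : J.Sy2 (s * e1) (s * e2) = s * J.Sy2 e1 e2 := by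
  unfold Sy2; ring
theorem Kv1_scale (s e1 e2 : ℝ) : J.Kv1 (s * e1) (s * e2) = s * J.Kv1 e1 e2 := by
  unfold Kv1; ring
theorem Kv2_scale (s e1 e2 : ℝ) : J.Kv2 (s * e1) (s * e2) = s * J.Kv2 e1 e2 := by
  unfold Kv2; ring
theorem Ty1_scale (s e1 e2 : ℝ) : J.Ty1 (s * e1) (s * e2) = s * J.Ty1 e1 e2 := by
  unfold Ty1; ring
theorem Ty2_scale (s e1 e2 : ℝ) : J.Ty2 (s * e1) (s * e2) = s * J.Ty2 e1 e2 := by
  unfold Ty2; ring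
theorem ric_scale (s e1 e2 : ℝ) : J.ric (s * e1) (s * e2) = s ^ 2 * J.ric e1 e2 := by
  unfold ric; ring
theorem cross_scale (s e1 e2 a b c d : ℝ) :
    J.cross (s * e1) (s * e2) a b c d = s ^ 2 * J.cross e1 e2 a b c d := by
  unfold cross
  rw [Sy1_scale, Sy2_scale, Kv1_scale, Kv2_scale, Ty1_scale, Ty2_scale]
  ring

variable {J} {C : ℝ}

theorem Bd.om (h : J.Bd C) : |J.Om| ≤ 2 * C := by
  refine (bS h.a2.x h.a1.y).trans (le_of_eq ?_); ring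
theorem Bd.o1 (h : J.Bd C) : |J.O1| ≤ 2 * C := by
  refine (bS h.a2.xx h.a1.xy).trans (le_of_eq ?_); ring
theorem Bd.o2 (h : J.Bd C) : |J.O2| ≤ 2 * C := by
  refine (bS h.a2.xy h.a1.yy).trans (le_of_eq ?_); ring

theorem covb {x a i : ℝ} (hC : 0 ≤ C) (hx : |x| ≤ C) (ha : |a| ≤ C) (hi : |i| ≤ C) :
    |x - 2 * a * i| ≤ C + 2 * C ^ 2 ∧ |x + 2 * a * i| ≤ C + 2 * C ^ 2 := by
  constructor
  · refine (bS hx (bM (bM (bK 2 (by norm_num)) ha) hi)).trans (le_of_eq ?_); ring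
  · refine (bA hx (bM (bM (bK 2 (by norm_num)) ha) hi)).trans (le_of_eq ?_); ring

theorem nab_bound {m0 mr mi r i a e1 e2 : ℝ} (hC : 0 ≤ C) (h0 : |m0| ≤ C) (hr : |mr| ≤ C)
    (hi : |mi| ≤ C) (hr' : |r| ≤ C) (hi' : |i| ≤ C) (ha : |a| ≤ C) (he1 : |e1| ≤ 1)
    (he2 : |e2| ≤ 1) :
    |qf m0 (mr - 2 * a * i) (mi + 2 * a * r) e1 e2| ≤ 6 * (C + 2 * C ^ 2) := by
  refine qf_bound (h0.trans ?_) (covb hC hr ha hi').1 (covb hC hi ha hr').2 he1 he2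
  nlinarith [sq_nonneg C]

theorem My_bound {m0 mr mi e1 e2 : ℝ} (h0 : |m0| ≤ C) (hr : |mr| ≤ C)
    (hi : |mi| ≤ C) (he1 : |e1| ≤ 1) (he2 : |e2| ≤ 1) :
    |(m0 + mr) * e1 + mi * e2| ≤ 3 * C ∧ |mi * e1 + (m0 - mr) * e2| ≤ 3 * C := by
  constructor
  · refine (bA (bM (bA h0 hr) he1) (bM hi he2)).trans (le_of_eq ?_); ring
  · refine (bA (bM hi he1) (bM (bS h0 hr) he2)).trans (le_of_eq ?_); ring

/-- the bound constant -/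
def Kc (C : ℝ) : ℝ :=
  4 * (4 * (9 * (C + 2 * C ^ 2)) ^ 2 + 32 * (9 * (C + 2 * C ^ 2)) * (4 * C) + 64 * (4 * C) ^ 2)
    + 75 * C ^ 2 + 320 * C

theorem cbounds (h : J.Bd C) (hC : 0 ≤ C) {e1 e2 : ℝ} (he1 : |e1| ≤ 1) (he2 : |e2| ≤ 1) :
    |J.nS1 e1 e2| ≤ 6 * (C + 2 * C ^ 2) ∧ |J.nS2 e1 e2| ≤ 6 * (C + 2 * C ^ 2)
    ∧ |J.nK1 e1 e2| ≤ 6 * (C + 2 * C ^ 2) ∧ |J.nK2 e1 e2| ≤ 6 * (C + 2 * C ^ 2)
    ∧ |J.nT1 e1 e2| ≤ 6 * (C + 2 * C ^ 2) ∧ |J.nT2 e1 e2| ≤ 6 * (C + 2 * C ^ 2) :=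
  ⟨nab_bound hC h.s0.x h.sr.x h.si.x h.sr.v h.si.v h.a1.v he1 he2,
   nab_bound hC h.s0.y h.sr.y h.si.y h.sr.v h.si.v h.a2.v he1 he2,
   nab_bound hC h.k0.x h.kr.x h.ki.x h.kr.v h.ki.v h.a1.v he1 he2,
   nab_bound hC h.k0.y h.kr.y h.ki.y h.kr.v h.ki.v h.a2.v he1 he2,
   nab_bound hC h.t0.x h.tr.x h.ti.x h.tr.v h.ti.v h.a1.v he1 he2,
   nab_bound hC h.t0.y h.tr.y h.ti.y h.tr.v h.ti.v h.a2.v he1 he2⟩

theorem half_bound {x c : ℝ} (h : |x| ≤ 6 * c) (hc : 0 ≤ c) : |-x / 2| ≤ 9 * c := by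
  rw [abs_div, abs_neg, abs_of_pos (by norm_num : (0:ℝ) < 2)]
  linarith

theorem half_bound2 {x y c : ℝ} (h : |x| ≤ 6 * c) (h' : |y| ≤ 6 * c) :
    |-(2 * x - y) / 2| ≤ 9 * c := by
  rw [abs_div, abs_neg, abs_of_pos (by norm_num : (0:ℝ) < 2)]
  have := bS (bM (bK 2 (by norm_num)) h) h'
  linarith

theorem mb1 {k f o e : ℝ} (hk : |k| ≤ 3 * C) (hf : |f| ≤ 1) (ho : |o| ≤ 2 * C)
    (he : |e| ≤ 1) : |-k + f * o * e / 2| ≤ 4 * C ∧ |-k - f * o * e / 2| ≤ 4 * C := by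
  have h1 : |f * o * e / 2| ≤ C := by
    rw [abs_div, abs_of_pos (by norm_num : (0:ℝ) < 2)]
    have := bM (bM hf ho) he
    linarith
  constructor
  · have := bA (bN hk) h1; linarith
  · have := bS (bN hk) h1; linarith

theorem gau_all (h : J.Bd C) (hC : 0 ≤ C) {e1 e2 s p q1 q2 q3 q4 t f : ℝ} (he1 : |e1| ≤ 1)
    (he2 : |e2| ≤ 1) (hfe : ph (s * e1) (s * e2) = f) (hf : |f| ≤ 1)
    (hp : |p * s| ≤ t) (k1 : |q1| ≤ t) (k2 : |q2| ≤ t) (k3 : |q3| ≤ t) (k4 : |q4| ≤ t) :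
    |J.gau11 (s * e1) (s * e2) p q1 q2 q3 q4| ≤ s ^ 2 * ((4 * (9 * (C + 2 * C ^ 2)) ^ 2
      + 32 * (9 * (C + 2 * C ^ 2)) * (4 * C) + 64 * (4 * C) ^ 2) * t ^ 2)
    ∧ |J.gau12 (s * e1) (s * e2) p q1 q2 q3 q4| ≤ s ^ 2 * ((4 * (9 * (C + 2 * C ^ 2)) ^ 2
      + 32 * (9 * (C + 2 * C ^ 2)) * (4 * C) + 64 * (4 * C) ^ 2) * t ^ 2)
    ∧ |J.gau22 (s * e1) (s * e2) p q1 q2 q3 q4| ≤ s ^ 2 * ((4 * (9 * (C + 2 * C ^ 2)) ^ 2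
      + 32 * (9 * (C + 2 * C ^ 2)) * (4 * C) + 64 * (4 * C) ^ 2) * t ^ 2) := by
  obtain ⟨c1, c2, c3, c4, c5, c6⟩ := cbounds h hC he1 he2
  have hD : 0 ≤ C + 2 * C ^ 2 := by positivity
  have hom := h.om
  have S := My_bound h.s0.v h.sr.v h.si.v he1 he2
  have K := My_bound h.k0.v h.kr.v h.ki.v he1 he2
  have T := My_bound h.t0.v h.tr.v h.ti.v he1 he2
  have w3 : 3 * C ≤ 4 * C := by linarith
  have s1 : |-(J.Sy1 e1 e2)| ≤ 4 * C := (bN S.1).trans w3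
  have s2 : |-(J.Sy2 e1 e2)| ≤ 4 * C := (bN S.2).trans w3
  have t1 : |-(J.Ty1 e1 e2)| ≤ 4 * C := (bN T.1).trans w3
  have t2 : |-(J.Ty2 e1 e2)| ≤ 4 * C := (bN T.2).trans w3
  have x1 := mb1 K.1 hf hom he2
  have x2 := mb1 K.2 hf hom he1
  have z1 := half_bound c1 hD
  have z2 := half_bound c2 hD
  have z3 := half_bound2 c4 c5
  have z4 := half_bound2 c3 c2
  have z5 := half_bound c5 hD
  have z6 := half_bound c6 hD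
  refine ⟨?_, ?_, ?_⟩
  · have e : J.gau11 (s * e1) (s * e2) p q1 q2 q3 q4 = s ^ 2 *
        gau (-(J.nS1 e1 e2) / 2) (-(J.nS2 e1 e2) / 2) (-(2 * J.nK2 e1 e2 - J.nT1 e1 e2) / 2)
      (-(J.Sy1 e1 e2)) (-(J.Sy2 e1 e2))
      (-(J.Kv1 e1 e2) + f * J.Om * e2 / 2) (-(J.Kv2 e1 e2) - f * J.Om * e1 / 2)
      (-(J.nS1 e1 e2) / 2) (-(J.nS2 e1 e2) / 2) (-(2 * J.nK2 e1 e2 - J.nT1 e1 e2) / 2)
      (-(J.Sy1 e1 e2)) (-(J.Sy2 e1 e2))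
      (-(J.Kv1 e1 e2) + f * J.Om * e2 / 2) (-(J.Kv2 e1 e2) - f * J.Om * e1 / 2)
      (p * s) q1 q2 q3 q4 := by
      rw [← gau_scale]
      unfold gau11
      simp only [nS1_scale, nS2_scale, nK1_scale, nK2_scale, nT1_scale, nT2_scale, Sy1_scale,
        Sy2_scale, Kv1_scale, Kv2_scale, hfe]
      congr 1 <;> ring
    rw [e, abs_mul, abs_of_nonneg (sq_nonneg s)]
    exact mul_le_mul_of_nonneg_left (gau_bound z1 z2 z3 z1 z2 z3 s1 s2 x1.1 x2.2 s1 s2 x1.1 x2.2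
      hp k1 k2 k3 k4) (sq_nonneg s)
  · have e : J.gau12 (s * e1) (s * e2) p q1 q2 q3 q4 = s ^ 2 *
        gau (-(J.nS1 e1 e2) / 2) (-(J.nS2 e1 e2) / 2) (-(2 * J.nK2 e1 e2 - J.nT1 e1 e2) / 2)
      (-(J.Sy1 e1 e2)) (-(J.Sy2 e1 e2))
      (-(J.Kv1 e1 e2) + f * J.Om * e2 / 2) (-(J.Kv2 e1 e2) - f * J.Om * e1 / 2)
      (-(2 * J.nK1 e1 e2 - J.nS2 e1 e2) / 2) (-(J.nT1 e1 e2) / 2) (-(J.nT2 e1 e2) / 2)
      (-(J.Kv1 e1 e2) - f * J.Om * e2 / 2) (-(J.Kv2 e1 e2) + f * J.Om * e1 / 2)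
      (-(J.Ty1 e1 e2)) (-(J.Ty2 e1 e2))
      (p * s) q1 q2 q3 q4 := by
      rw [← gau_scale]
      unfold gau12
      simp only [nS1_scale, nS2_scale, nK1_scale, nK2_scale, nT1_scale, nT2_scale, Sy1_scale,
        Sy2_scale, Kv1_scale, Kv2_scale, Ty1_scale, Ty2_scale, hfe]
      congr 1 <;> ring
    rw [e, abs_mul, abs_of_nonneg (sq_nonneg s)]
    exact mul_le_mul_of_nonneg_left (gau_bound z1 z2 z3 z4 z5 z6 s1 s2 x1.1 x2.2 x1.2 x2.1 t1 t2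
      hp k1 k2 k3 k4) (sq_nonneg s)
  · have e : J.gau22 (s * e1) (s * e2) p q1 q2 q3 q4 = s ^ 2 *
        gau (-(2 * J.nK1 e1 e2 - J.nS2 e1 e2) / 2) (-(J.nT1 e1 e2) / 2) (-(J.nT2 e1 e2) / 2)
      (-(J.Kv1 e1 e2) - f * J.Om * e2 / 2) (-(J.Kv2 e1 e2) + f * J.Om * e1 / 2)
      (-(J.Ty1 e1 e2)) (-(J.Ty2 e1 e2))
      (-(2 * J.nK1 e1 e2 - J.nS2 e1 e2) / 2) (-(J.nT1 e1 e2) / 2) (-(J.nT2 e1 e2) / 2)
      (-(J.Kv1 e1 e2) - f * J.Om * e2 / 2) (-(J.Kv2 e1 e2) + f * J.Om * e1 / 2)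
      (-(J.Ty1 e1 e2)) (-(J.Ty2 e1 e2))
      (p * s) q1 q2 q3 q4 := by
      rw [← gau_scale]
      unfold gau22
      simp only [nS1_scale, nS2_scale, nK1_scale, nK2_scale, nT1_scale, nT2_scale, Sy1_scale,
        Sy2_scale, Kv1_scale, Kv2_scale, Ty1_scale, Ty2_scale, hfe]
      congr 1 <;> ring
    rw [e, abs_mul, abs_of_nonneg (sq_nonneg s)]
    exact mul_le_mul_of_nonneg_left (gau_bound z4 z5 z6 z4 z5 z6 x1.2 x2.1 t1 t2 x1.2 x2.1 t1 t2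
      hp k1 k2 k3 k4) (sq_nonneg s)

end Jets

end Pool.Agent.helper65.Tor
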