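import Pool.Agent.helper65.Tor.Est2

set_option autoImplicit false

noncomputable section

namespace Pool.Agent.helper65.Tor

namespace Jets

variable {J : Jets} {C : ℝ}

theorem ric_bound (h : J.Bd C) {e1 e2 : ℝ} (he1 : |e1| ≤ 1) (he2 : |e2| ≤ 1) :
    |J.ric e1 e2| ≤ 36 * C ^ 2 := by
  have S := My_bound h.s0.v h.sr.v h.si.v he1 he2
  have K := My_bound h.k0.v h.kr.v h.ki.v he1 he2
  have T := My_bound h.t0.v h.tr.v h.ti.v he1 he2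
  have := bS (bA (bQ K.1) (bQ K.2)) (bA (bM S.1 T.1) (bM S.2 T.2))
  unfold ric
  refine this.trans (le_of_eq ?_)
  ring

theorem cross_bound (h : J.Bd C) {e1 e2 q1 q2 q3 q4 t : ℝ} (he1 : |e1| ≤ 1) (he2 : |e2| ≤ 1)
    (k1 : |q1| ≤ t) (k2 : |q2| ≤ t) (k3 : |q3| ≤ t) (k4 : |q4| ≤ t) :
    |J.cross e1 e2 q1 q2 q3 q4| ≤ 144 * C * t ^ 2 := by
  have S := My_bound h.s0.v h.sr.v h.si.v he1 he2
  have K := My_bound h.k0.v h.kr.v h.ki.v he1 he2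
  have T := My_bound h.t0.v h.tr.v h.ti.v he1 he2
  change |J.Sy1 e1 e2| ≤ _ ∧ |J.Sy2 e1 e2| ≤ _ at S
  change |J.Kv1 e1 e2| ≤ _ ∧ |J.Kv2 e1 e2| ≤ _ at K
  change |J.Ty1 e1 e2| ≤ _ ∧ |J.Ty2 e1 e2| ≤ _ at T
  have := bS (bM (bK 2 (by norm_num))
    (bA (bA (bA (bM (bA (bM S.1 k1) (bM S.2 k2)) (bA (bM he1 k1) (bM he2 k2)))
      (bM (bA (bM K.1 k1) (bM K.2 k2)) (bA (bM he1 k3) (bM he2 k4))))
      (bM (bA (bM K.1 k3) (bM K.2 k4)) (bA (bM he1 k1) (bM he2 k2))))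
      (bM (bA (bM T.1 k3) (bM T.2 k4)) (bA (bM he1 k3) (bM he2 k4)))))
    (bA (bA (bM (bA (bM S.1 he1) (bM S.2 he2)) (bA (bQ k1) (bQ k2)))
      (bM (bM (bK 2 (by norm_num)) (bA (bM K.1 he1) (bM K.2 he2))) (bA (bM k1 k3) (bM k2 k4))))
      (bM (bA (bM T.1 he1) (bM T.2 he2)) (bA (bQ k3) (bQ k4))))
  unfold cross
  refine this.trans (le_of_eq ?_)
  ring

theorem om_bound (h : J.Bd C) {e1 e2 P q1 q2 q3 q4 t : ℝ} (he1 : |e1| ≤ 1) (he2 : |e2| ≤ 1)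
    (hP : |P| ≤ t) (k1 : |q1| ≤ t) (k2 : |q2| ≤ t) (k3 : |q3| ≤ t) (k4 : |q4| ≤ t) :
    |-3 * J.Om * (q1 * q4 - q2 * q3) - P * (J.O1 * (-e2 * q1 + e1 * q2)
      + J.O2 * (-e2 * q3 + e1 * q4)) - 3 / 4 * J.Om ^ 2 * P ^ 2| ≤ (20 * C + 3 * C ^ 2) * t ^ 2 := by
  have := bS (bS (bM (bM (bN (bK 3 (by norm_num))) h.om) (bS (bM k1 k4) (bM k2 k3)))
    (bM hP (bA (bM h.o1 (bA (bM (bN he2) k1) (bM he1 k2)))
      (bM h.o2 (bA (bM (bN he2) k3) (bM he1 k4))))))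
    (bM (bM (bK (3/4) (by norm_num)) (bQ h.om)) (bQ hP))
  refine this.trans (le_of_eq ?_)
  ring

theorem om3_bound (h : J.Bd C) {q1 q2 q3 q4 t : ℝ}
    (k1 : |q1| ≤ t) (k2 : |q2| ≤ t) (k3 : |q3| ≤ t) (k4 : |q4| ≤ t) :
    |3 * J.Om * (q1 * q4 - q2 * q3)| ≤ 12 * C * t ^ 2 := by
  have := bM (bM (bK 3 (by norm_num)) h.om) (bS (bM k1 k4) (bM k2 k3))
  refine this.trans (le_of_eq ?_)
  ring

theorem g_bound (h : J.Bd C) (hC : 0 ≤ C) {s e1 e2 : ℝ} (he1 : |e1| ≤ 1) (he2 : |e2| ≤ 1)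
    (hs : s ^ 2 * (6 * C) ≤ 1 / 8) :
    0 < J.hd (s * e1) (s * e2) ∧ |J.g11 (s * e1) (s * e2)| ≤ 2 ∧ |J.g12 (s * e1) (s * e2)| ≤ 2
      ∧ |J.g22 (s * e1) (s * e2)| ≤ 2 := by
  have S := qf_bound h.s0.v h.sr.v h.si.v he1 he2
  have K := qf_bound h.k0.v h.kr.v h.ki.v he1 he2
  have T := qf_bound h.t0.v h.tr.v h.ti.v he1 he2
  unfold hd g11 g12 g22 hd
  rw [qf_scale, qf_scale, qf_scale]
  have key : ∀ a : ℝ, |a| ≤ 6 * C → |s ^ 2 * a| ≤ 1 / 8 := by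
    intro a ha
    rw [abs_mul, abs_of_nonneg (sq_nonneg s)]
    exact (mul_le_mul_of_nonneg_left ha (sq_nonneg s)).trans hs
  have a1 := key _ S
  have a2 := key _ K
  have a3 := key _ T
  generalize s ^ 2 * qf J.s0.v J.sr.v J.si.v e1 e2 = x at *
  generalize s ^ 2 * qf J.k0.v J.kr.v J.ki.v e1 e2 = y at *
  generalize s ^ 2 * qf J.t0.v J.tr.v J.ti.v e1 e2 = z at *
  rw [abs_le] at a1 a2 a3
  have hd : 1 / 2 + 1 / 8 ≤ (1 - x) * (1 - z) - y ^ 2 := by nlinarith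
  have hpos : 0 < (1 - x) * (1 - z) - y ^ 2 := by linarith
  refine ⟨hpos, ?_, ?_, ?_⟩
  · rw [abs_div, abs_of_pos hpos, div_le_iff₀ hpos, abs_le]
    constructor <;> nlinarith
  · rw [abs_div, abs_of_pos hpos, div_le_iff₀ hpos, abs_le]
    constructor <;> nlinarith
  · rw [abs_div, abs_of_pos hpos, div_le_iff₀ hpos, abs_le]
    constructor <;> nlinarith

/-- the main pointwise estimate -/
theorem Tot_lower (h : J.Bd C) (hC : 0 ≤ C) {m : ℝ}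
    (hP : ∀ w0 w1 w2 w3 w4 w5 : ℝ,
      m * (w0 ^ 2 + w1 ^ 2 + w2 ^ 2 + w3 ^ 2 + w4 ^ 2 + w5 ^ 2) ≤ J.Pq w0 w1 w2 w3 w4 w5)
    {y1 y2 : ℝ} (hn : 0 < y1 ^ 2 + y2 ^ 2) (hn2 : y1 ^ 2 + y2 ^ 2 ≤ 1 / 2)
    (hn3 : (y1 ^ 2 + y2 ^ 2) * (6 * C) ≤ 1 / 8) (u v : Fin 4 → ℝ) :
    (m - Kc C * (y1 ^ 2 + y2 ^ 2)) * ((y1 ^ 2 + y2 ^ 2) * pp u v ^ 2
      + (J.q11 y2 u v ^ 2 + J.q12 y1 u v ^ 2 + J.q21 y2 u v ^ 2 + J.q22 y1 u v ^ 2))
      + 2 * J.rr y1 y2 u v ^ 2 ≤ J.Tot y1 y2 u v := by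
  set n := y1 ^ 2 + y2 ^ 2 with hndef
  set s := Real.sqrt n with hs
  have hs0 : 0 < s := Real.sqrt_pos.mpr hn
  have hsn : s ^ 2 = n := Real.sq_sqrt hn.le
  have hsne : s ≠ 0 := hs0.ne'
  set e1 := y1 / s with he1d
  set e2 := y2 / s with he2d
  have hy1 : y1 = s * e1 := by rw [he1d]; field_simp
  have hy2 : y2 = s * e2 := by rw [he2d]; field_simp
  have he12 : e1 ^ 2 + e2 ^ 2 = 1 := by
    have : s ^ 2 * (e1 ^ 2 + e2 ^ 2) = s ^ 2 * 1 := by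
      have : s ^ 2 * (e1 ^ 2 + e2 ^ 2) = (s * e1) ^ 2 + (s * e2) ^ 2 := by ring
      rw [this, ← hy1, ← hy2, hsn, hndef]; ring
    exact mul_left_cancel₀ (pow_ne_zero 2 hsne) this
  have he1 : |e1| ≤ 1 := abs_le_one_iff_mul_self_le_one.mpr (by nlinarith)
  have he2 : |e2| ≤ 1 := abs_le_one_iff_mul_self_le_one.mpr (by nlinarith)
  have hphe : ph y1 y2 = 1 - n := by unfold ph; rfl
  have hph0 : 1 / 2 ≤ ph y1 y2 := by rw [hphe]; linarith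
  have hph1 : ph y1 y2 ≤ 1 := by rw [hphe]; linarith
  have hphpos : 0 < ph y1 y2 := by linarith
  have hphne : ph y1 y2 ≠ 0 := hphpos.ne'
  set g := 1 / ph y1 y2 with hgdef
  have hg1 : g * ph y1 y2 = 1 := by rw [hgdef]; field_simp
  have hg2 : 0 < g := by rw [hgdef]; positivity
  have hg3 : g ≤ 2 := by
    rw [hgdef, div_le_iff₀ hphpos]; linarith
  have hg4 : g - 1 = n * g := by
    have : g * (1 - n) = 1 := by rw [← hphe]; exact hg1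
    linarith
  rw [Tot_eq J y1 y2 hphne u v]
  have hsn' : s ^ 2 * (6 * C) ≤ 1 / 8 := by rw [hsn]; exact hn3
  obtain ⟨-, G1, G2, G3⟩ := g_bound h hC he1 he2 hsn'
  have hMain : m * (n * pp u v ^ 2
      + (J.q11 y2 u v ^ 2 + J.q12 y1 u v ^ 2 + J.q21 y2 u v ^ 2 + J.q22 y1 u v ^ 2))
      ≤ J.Main y1 y2 u v := by
    refine le_trans (le_of_eq ?_) (hP (pp u v * y1) (pp u v * y2) (-J.q21 y2 u v)
      (-J.q22 y1 u v) (J.q11 y2 u v) (J.q12 y1 u v))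
    rw [hndef]; ring
  rw [← hgdef, ← hndef]
  generalize J.Main y1 y2 u v = M at *
  generalize J.rr y1 y2 u v = r at *
  generalize hq1 : J.q11 y2 u v = q1 at *
  generalize hq2 : J.q12 y1 u v = q2 at *
  generalize hq3 : J.q21 y2 u v = q3 at *
  generalize hq4 : J.q22 y1 u v = q4 at *
  generalize pp u v = p at *
  set t := Real.sqrt (n * p ^ 2 + (q1 ^ 2 + q2 ^ 2 + q3 ^ 2 + q4 ^ 2)) with htdef
  have ht0 : 0 ≤ t := Real.sqrt_nonneg _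
  have ht2 : t ^ 2 = n * p ^ 2 + (q1 ^ 2 + q2 ^ 2 + q3 ^ 2 + q4 ^ 2) :=
    Real.sq_sqrt (by positivity)
  have hnp : 0 ≤ n * p ^ 2 := mul_nonneg hn.le (sq_nonneg p)
  have hps : |p * s| ≤ t := by
    refine abs_le_of_sq_le_sq ?_ ht0
    rw [ht2, mul_pow, hsn, mul_comm (p ^ 2) n]
    linarith [sq_nonneg q1, sq_nonneg q2, sq_nonneg q3, sq_nonneg q4]
  have k1 : |q1| ≤ t := by
    refine abs_le_of_sq_le_sq ?_ ht0
    rw [ht2]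
    linarith [sq_nonneg q1, sq_nonneg q2, sq_nonneg q3, sq_nonneg q4, hnp]
  have k2 : |q2| ≤ t := by
    refine abs_le_of_sq_le_sq ?_ ht0
    rw [ht2]
    linarith [sq_nonneg q1, sq_nonneg q2, sq_nonneg q3, sq_nonneg q4, hnp]
  have k3 : |q3| ≤ t := by
    refine abs_le_of_sq_le_sq ?_ ht0
    rw [ht2]
    linarith [sq_nonneg q1, sq_nonneg q2, sq_nonneg q3, sq_nonneg q4, hnp]
  have k4 : |q4| ≤ t := by
    refine abs_le_of_sq_le_sq ?_ ht0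
    rw [ht2]
    linarith [sq_nonneg q1, sq_nonneg q2, sq_nonneg q3, sq_nonneg q4, hnp]
  rw [← ht2] at hMain ⊢
  have hf1 : |ph y1 y2| ≤ 1 := by rw [abs_of_pos hphpos]; exact hph1
  have B1 := ric_bound h he1 he2
  have B2 := om_bound h he1 he2 hps k1 k2 k3 k4
  have B3 := om3_bound h k1 k2 k3 k4
  have B4 := cross_bound h he1 he2 k1 k2 k3 k4
  obtain ⟨B5, B6, B7⟩ := gau_all h hC he1 he2 rfl (by rw [← hy1, ← hy2]; exact hf1)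
    hps k1 k2 k3 k4
  rw [← hy1, ← hy2] at B5 B6 B7 G1 G2 G3
  rw [hsn] at B5 B6 B7
  -- rewrite the terms
  have R1 : J.ric y1 y2 = n * J.ric e1 e2 := by
    have := J.ric_scale s e1 e2
    rw [← hy1, ← hy2, hsn] at this; exact this
  have R4 : J.cross y1 y2 q1 q2 q3 q4 = n * J.cross e1 e2 q1 q2 q3 q4 := by
    have := J.cross_scale s e1 e2 q1 q2 q3 q4
    rw [← hy1, ← hy2, hsn] at this; exact this
  have R2 : -3 * J.Om * (q1 * q4 - q2 * q3)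
        - p * (J.O1 * (-y2 * q1 + y1 * q2) + J.O2 * (-y2 * q3 + y1 * q4))
        - 3 / 4 * J.Om ^ 2 * p ^ 2 * n
      = -3 * J.Om * (q1 * q4 - q2 * q3) - p * s * (J.O1 * (-e2 * q1 + e1 * q2)
      + J.O2 * (-e2 * q3 + e1 * q4)) - 3 / 4 * J.Om ^ 2 * (p * s) ^ 2 := by
    rw [mul_pow, hsn]
    conv_lhs => rw [hy1, hy2]
    ring
  rw [R1, R4, R2]
  have ht2' : (p * s) ^ 2 ≤ t ^ 2 := by
    rw [ht2, mul_pow, hsn, mul_comm (p ^ 2) n]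
    linarith [sq_nonneg q1, sq_nonneg q2, sq_nonneg q3, sq_nonneg q4]
  have T1 : |(g - 1) * (p ^ 2 * (n * J.ric e1 e2))| ≤ n * (72 * C ^ 2 * t ^ 2) := by
    have e : (g - 1) * (p ^ 2 * (n * J.ric e1 e2)) = n * (g * ((p * s) ^ 2 * J.ric e1 e2)) := by
      rw [hg4, mul_pow, hsn]; ring
    rw [e, abs_mul, abs_of_pos hn]
    refine mul_le_mul_of_nonneg_left ?_ hn.le
    have hg' : |g| ≤ 2 := by rw [abs_of_pos hg2]; exact hg3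
    have hp' : |(p * s) ^ 2| ≤ t ^ 2 := by rw [abs_of_nonneg (sq_nonneg _)]; exact ht2'
    refine (bM hg' (bM hp' B1)).trans (le_of_eq ?_)
    ring
  have T2 : |(ph y1 y2 - 1) * (-3 * J.Om * (q1 * q4 - q2 * q3)
      - p * s * (J.O1 * (-e2 * q1 + e1 * q2)
      + J.O2 * (-e2 * q3 + e1 * q4)) - 3 / 4 * J.Om ^ 2 * (p * s) ^ 2)|
      ≤ n * ((20 * C + 3 * C ^ 2) * t ^ 2) := by
    have e : ph y1 y2 - 1 = -n := by rw [hphe]; ring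
    rw [e, abs_mul, abs_neg, abs_of_pos hn]
    exact mul_le_mul_of_nonneg_left B2 hn.le
  have T3 : |3 * J.Om * n * (q1 * q4 - q2 * q3)| ≤ n * (12 * C * t ^ 2) := by
    have e : 3 * J.Om * n * (q1 * q4 - q2 * q3) = n * (3 * J.Om * (q1 * q4 - q2 * q3)) := by ring
    rw [e, abs_mul, abs_of_pos hn]
    exact mul_le_mul_of_nonneg_left B3 hn.le
  have T4 : |g * (n * J.cross e1 e2 q1 q2 q3 q4)| ≤ n * (288 * C * t ^ 2) := by
    have e : g * (n * J.cross e1 e2 q1 q2 q3 q4) = n * (g * J.cross e1 e2 q1 q2 q3 q4) := by ring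
    rw [e, abs_mul, abs_of_pos hn]
    refine mul_le_mul_of_nonneg_left ?_ hn.le
    have hg' : |g| ≤ 2 := by rw [abs_of_pos hg2]; exact hg3
    refine (bM hg' B4).trans (le_of_eq ?_)
    ring
  set Kg := 4 * (9 * (C + 2 * C ^ 2)) ^ 2
      + 32 * (9 * (C + 2 * C ^ 2)) * (4 * C) + 64 * (4 * C) ^ 2 with hKg
  have T5 : |J.g11 y1 y2 / 2 * J.gau11 y1 y2 p q1 q2 q3 q4
      + J.g12 y1 y2 * J.gau12 y1 y2 p q1 q2 q3 q4
      + J.g22 y1 y2 / 2 * J.gau22 y1 y2 p q1 q2 q3 q4| ≤ n * (4 * Kg * t ^ 2) := by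
    have h1 : |J.g11 y1 y2 / 2| ≤ 1 := by
      rw [abs_div, abs_of_pos (by norm_num : (0:ℝ) < 2)]; linarith
    have h3 : |J.g22 y1 y2 / 2| ≤ 1 := by
      rw [abs_div, abs_of_pos (by norm_num : (0:ℝ) < 2)]; linarith
    refine (bA (bA (bM h1 B5) (bM G2 B6)) (bM h3 B7)).trans (le_of_eq ?_)
    ring
  have hKc : Kc C = 4 * Kg + 75 * C ^ 2 + 320 * C := rfl
  have hr : 0 ≤ 2 * g * n * r ^ 2 := by positivity
  rw [abs_le] at T1 T2 T3 T4 T5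
  rw [hKc]
  have U1 := T1.1
  have U2 := T2.1
  have U3 := T3.1
  have U4 := T4.1
  have U5 := T5.1
  have e0 : (m - (4 * Kg + 75 * C ^ 2 + 320 * C) * n) * t ^ 2
      = m * t ^ 2 - n * (72 * C ^ 2 * t ^ 2) - n * ((20 * C + 3 * C ^ 2) * t ^ 2)
        - n * (12 * C * t ^ 2) - n * (288 * C * t ^ 2) - n * (4 * Kg * t ^ 2) := by ring
  rw [e0]
  linarith

end Jets

end Pool.Agent.helper65.Tor
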