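import Pool.Agent.helper65.Tor.Contr
import Pool.Agent.helper65.Tor.Est

set_option autoImplicit false

noncomputable section

namespace Pool.Agent.helper65.Tor

namespace Jets

variable (J : Jets) (y1 y2 : ℝ)

/-- Gram matrix of the metric -/
def gm : Matrix (Fin 4) (Fin 4) ℝ := Matrix.of fun p q => J.B y1 y2 (ee p) (ee q)

/-- horizontal component of a covector -/
def cX1 (b : Fin 4 → ℝ) : ℝ := b 0 - J.a1.v * (-(y2 * b 2) + y1 * b 3)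
def cX2 (b : Fin 4 → ℝ) : ℝ := b 1 - J.a2.v * (-(y2 * b 2) + y1 * b 3)

/-- the inverse on covectors -/
def cH1 (b : Fin 4 → ℝ) : ℝ := J.g11 y1 y2 * J.cX1 y1 y2 b + J.g12 y1 y2 * J.cX2 y1 y2 b
def cH2 (b : Fin 4 → ℝ) : ℝ := J.g12 y1 y2 * J.cX1 y1 y2 b + J.g22 y1 y2 * J.cX2 y1 y2 b

def cinv (b : Fin 4 → ℝ) : Fin 4 → ℝ :=
  ![J.cH1 y1 y2 b, J.cH2 y1 y2 b,
    1 / ph y1 y2 * b 2 + (J.a1.v * J.cH1 y1 y2 b + J.a2.v * J.cH2 y1 y2 b) * y2,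
    1 / ph y1 y2 * b 3 - (J.a1.v * J.cH1 y1 y2 b + J.a2.v * J.cH2 y1 y2 b) * y1]

theorem gm_mulVec (hd0 : J.hd y1 y2 ≠ 0) (hph : ph y1 y2 ≠ 0) (b : Fin 4 → ℝ) :
    (J.gm y1 y2).mulVec (J.cinv y1 y2 b) = b := by
  have e1 : ∀ i, (J.gm y1 y2).mulVec (J.cinv y1 y2 b) i = J.B y1 y2 (ee i) (J.cinv y1 y2 b) := by
    intro i
    rw [B_lin' J y1 y2 (ee i) (J.cinv y1 y2 b)]
    simp only [Matrix.mulVec, dotProduct, gm, Matrix.of_apply]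
    exact Finset.sum_congr rfl fun j _ => mul_comm _ _
  have hH1 : (1 - qf J.s0.v J.sr.v J.si.v y1 y2) * J.cH1 y1 y2 b
      - qf J.k0.v J.kr.v J.ki.v y1 y2 * J.cH2 y1 y2 b = J.cX1 y1 y2 b := by
    unfold cH1 cH2 g11 g12 g22
    field_simp
    unfold hd
    ring
  have hH2 : (1 - qf J.t0.v J.tr.v J.ti.v y1 y2) * J.cH2 y1 y2 b
      - qf J.k0.v J.kr.v J.ki.v y1 y2 * J.cH1 y1 y2 b = J.cX2 y1 y2 b := by
    unfold cH1 cH2 g11 g12 g22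
    field_simp
    unfold hd
    ring
  have hp : ph y1 y2 * (1 / ph y1 y2) = 1 := by field_simp
  have c0 : J.cinv y1 y2 b 0 = J.cH1 y1 y2 b := rfl
  have c1 : J.cinv y1 y2 b 1 = J.cH2 y1 y2 b := rfl
  have k1 : J.h1 y2 (J.cinv y1 y2 b) = 1 / ph y1 y2 * b 2 := by
    have c2 : J.cinv y1 y2 b 2 = 1 / ph y1 y2 * b 2
      + (J.a1.v * J.cH1 y1 y2 b + J.a2.v * J.cH2 y1 y2 b) * y2 := rfl
    unfold h1 al
    rw [c0, c1, c2]; ring
  have k2 : J.h2 y1 (J.cinv y1 y2 b) = 1 / ph y1 y2 * b 3 := by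
    have c3 : J.cinv y1 y2 b 3 = 1 / ph y1 y2 * b 3
      - (J.a1.v * J.cH1 y1 y2 b + J.a2.v * J.cH2 y1 y2 b) * y1 := rfl
    unfold h2 al
    rw [c0, c1, c3]; ring
  funext i
  rw [e1]
  unfold B kap
  rw [k1, k2, c0, c1]
  generalize 1 / ph y1 y2 = f at *
  generalize ph y1 y2 = F at *
  unfold cX1 at hH1
  unfold cX2 at hH2
  fin_cases i
  · simp only [Fin.zero_eta, h1, h2, al, ee, Pi.single_apply, Fin.reduceEq, if_true, if_false]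
    linear_combination hH1 + (-(J.a1.v * y2 * b 2) + J.a1.v * y1 * b 3) * hp
  · simp only [Fin.mk_one, h1, h2, al, ee, Pi.single_apply, Fin.reduceEq, if_true, if_false]
    linear_combination hH2 + (-(J.a2.v * y2 * b 2) + J.a2.v * y1 * b 3) * hp
  · simp only [Fin.reduceFinMk, h1, h2, al, ee, Pi.single_apply, Fin.reduceEq, if_true, if_false]
    linear_combination b 2 * hp
  · simp only [Fin.reduceFinMk, h1, h2, al, ee, Pi.single_apply, Fin.reduceEq, if_true, if_false]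
    linear_combination b 3 * hp

theorem gm_inv (hd0 : J.hd y1 y2 ≠ 0) (hph : ph y1 y2 ≠ 0) (b : Fin 4 → ℝ) :
    (J.gm y1 y2)⁻¹.mulVec b = J.cinv y1 y2 b := by
  have hu : IsUnit (J.gm y1 y2) := by
    rw [← Matrix.mulVec_surjective_iff_isUnit]
    intro b
    exact ⟨_, gm_mulVec J y1 y2 hd0 hph b⟩
  have hdet : IsUnit (J.gm y1 y2).det := (Matrix.isUnit_iff_isUnit_det _).1 hu
  conv_lhs => rw [← gm_mulVec J y1 y2 hd0 hph b]
  rw [Matrix.mulVec_mulVec, Matrix.nonsing_inv_mul _ hdet, Matrix.one_mulVec]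

theorem gm_pair (hd0 : J.hd y1 y2 ≠ 0) (hph : ph y1 y2 ≠ 0) (a b : Fin 4 → ℝ) :
    ∑ i, ∑ j, (J.gm y1 y2)⁻¹ i j * (a i * b j)
      = 1 / ph y1 y2 * (a 2 * b 2 + a 3 * b 3)
        + (J.g11 y1 y2 * (J.cX1 y1 y2 a * J.cX1 y1 y2 b)
          + J.g12 y1 y2 * (J.cX1 y1 y2 a * J.cX2 y1 y2 b + J.cX2 y1 y2 a * J.cX1 y1 y2 b)
          + J.g22 y1 y2 * (J.cX2 y1 y2 a * J.cX2 y1 y2 b)) := by
  have e : ∑ i, ∑ j, (J.gm y1 y2)⁻¹ i j * (a i * b j)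
      = ∑ i, a i * (J.gm y1 y2)⁻¹.mulVec b i := by
    refine Finset.sum_congr rfl fun i _ => ?_
    simp only [Matrix.mulVec, dotProduct, Finset.mul_sum]
    refine Finset.sum_congr rfl fun j _ => ?_
    ring
  rw [e, gm_inv J y1 y2 hd0 hph b, Fin.sum_univ_four]
  have c0 : J.cinv y1 y2 b 0 = J.cH1 y1 y2 b := rfl
  have c1 : J.cinv y1 y2 b 1 = J.cH2 y1 y2 b := rfl
  have c2 : J.cinv y1 y2 b 2 = 1 / ph y1 y2 * b 2
      + (J.a1.v * J.cH1 y1 y2 b + J.a2.v * J.cH2 y1 y2 b) * y2 := rfl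
  have c3 : J.cinv y1 y2 b 3 = 1 / ph y1 y2 * b 3
      - (J.a1.v * J.cH1 y1 y2 b + J.a2.v * J.cH2 y1 y2 b) * y1 := rfl
  rw [c0, c1, c2, c3]
  unfold cH1 cH2 cX1 cX2
  ring

/-- the curvature numerator from second derivatives and lowered Christoffel symbols -/
theorem Tot_formula (hd0 : J.hd y1 y2 ≠ 0) (hph : ph y1 y2 ≠ 0) (u v : Fin 4 → ℝ) :
    (J.F2 y1 y2 u v u v + J.F2 y1 y2 v u v u - J.F2 y1 y2 v v u u - J.F2 y1 y2 u u v v) / 2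
      + ∑ a, ∑ b, (J.gm y1 y2)⁻¹ a b *
        (J.G3 y1 y2 v u (ee a) * J.G3 y1 y2 u v (ee b)
          - J.G3 y1 y2 v v (ee a) * J.G3 y1 y2 u u (ee b)) = J.Tot y1 y2 u v := by
  simp only [mul_sub, Finset.sum_sub_distrib]
  rw [gm_pair J y1 y2 hd0 hph (fun i => J.G3 y1 y2 v u (ee i)) (fun i => J.G3 y1 y2 u v (ee i)),
    gm_pair J y1 y2 hd0 hph (fun i => J.G3 y1 y2 v v (ee i)) (fun i => J.G3 y1 y2 u u (ee i))]
  have b0 : (ee 0 : Fin 4 → ℝ) = ![1, 0, 0, 0] := by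
    funext i; fin_cases i <;> simp [ee]
  have b1 : (ee 1 : Fin 4 → ℝ) = ![0, 1, 0, 0] := by
    funext i; fin_cases i <;> simp [ee]
  have b2 : (ee 2 : Fin 4 → ℝ) = ![0, 0, 1, 0] := by
    funext i; fin_cases i <;> simp [ee]
  have b3 : (ee 3 : Fin 4 → ℝ) = ![0, 0, 0, 1] := by
    funext i; fin_cases i <;> simp [ee]
  simp only [cX1, cX2, Tot, V1, V2, GX1, GX2, b0, b1, b2, b3, J.G3_symm y1 y2 v u]
  ring

end Jets

end Pool.Agent.helper65.Tor
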