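import Mathlib

set_option autoImplicit false

/-!
Curvature numerator of a metric on `ℝ⁴` given by components, exactly as in the frozen statement
S14023, and the statement of its behaviour under pullback.
-/

open Matrix

namespace Pool.Agent.helper65.Tor

/-- coordinate space -/
abbrev E4 := Fin 4 → ℝ

/-- metric components -/
abbrev Met := Fin 4 → Fin 4 → E4 → ℝ

/-- lowered Christoffel symbols, as in S14023 -/
noncomputable def Gam (g : Met) (a k l : Fin 4) (x : E4) : ℝ :=
  (fderiv ℝ (g l a) x (Pi.single k 1) + fderiv ℝ (g k a) x (Pi.single l 1)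
    - fderiv ℝ (g k l) x (Pi.single a 1)) / 2

/-- lowered Riemann tensor, as in S14023 -/
noncomputable def Riem (g : Met) (i k l m : Fin 4) (x : E4) : ℝ :=
  (fderiv ℝ (fun y => fderiv ℝ (g i m) y (Pi.single k 1)) x (Pi.single l 1)
    + fderiv ℝ (fun y => fderiv ℝ (g k l) y (Pi.single i 1)) x (Pi.single m 1)
    - fderiv ℝ (fun y => fderiv ℝ (g i l) y (Pi.single k 1)) x (Pi.single m 1)
    - fderiv ℝ (fun y => fderiv ℝ (g k m) y (Pi.single i 1)) x (Pi.single l 1)) / 2
  + ∑ a, ∑ b, (Matrix.of fun p q => g p q x)⁻¹ a b *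
      (Gam g a k l x * Gam g b i m x - Gam g a k m x * Gam g b i l x)

/-- the numerator of the sectional curvature, as in S14023 -/
noncomputable def Num (g : Met) (x u v : E4) : ℝ :=
  ∑ i, ∑ k, ∑ l, ∑ m, Riem g i k l m x * u i * v k * u l * v m

/-- pullback of a metric by a map -/
noncomputable def pull (g : Met) (Φ : E4 → E4) : Met := fun i j z =>
  ∑ p, ∑ q, g p q (Φ z) * fderiv ℝ Φ z (Pi.single i 1) p * fderiv ℝ Φ z (Pi.single j 1) q

/-- TO PROVE (pullback lemma): the curvature numerator is a tensor. -/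
def PullStatement : Prop :=
  ∀ (g : Met) (Φ : E4 → E4) (z u v : E4),
    (∀ i j, ContDiff ℝ 4 (g i j)) → (∀ i j x, g i j x = g j i x) → ContDiff ℝ 4 Φ →
    (Matrix.of fun p q => g p q (Φ z)).det ≠ 0 →
    Function.Injective (fderiv ℝ Φ z) →
    Num (pull g Φ) z u v = Num g (Φ z) (fderiv ℝ Φ z u) (fderiv ℝ Φ z v)

end Pool.Agent.helper65.Tor
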