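import Pool.Agent.helper65.Tor.Alg2
import Pool.Agent.helper65.Tor.Num

set_option autoImplicit false

noncomputable section

namespace Pool.Agent.helper65.Tor

/-- basis vector -/
abbrev ee (i : Fin 4) : Fin 4 → ℝ := Pi.single i 1

namespace Jets

variable (J : Jets) (y1 y2 : ℝ)

theorem B_symm (a b : Fin 4 → ℝ) : J.B y1 y2 a b = J.B y1 y2 b a := by
  simp only [B, kap]; ring

theorem F1_symm (w a b : Fin 4 → ℝ) : J.F1 y1 y2 w a b = J.F1 y1 y2 w b a := by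
  simp only [F1, kap']; ring

theorem B_lin (a b : Fin 4 → ℝ) : J.B y1 y2 a b = ∑ i, a i * J.B y1 y2 (ee i) b := by
  simp only [Fin.sum_univ_four, B, kap, h1, h2, al, ee, Pi.single_apply,
    Fin.reduceEq, if_true, if_false]
  ring

theorem F1_lin_w (w a b : Fin 4 → ℝ) : J.F1 y1 y2 w a b = ∑ i, w i * J.F1 y1 y2 (ee i) a b := by
  simp only [Fin.sum_univ_four, F1, kap', ph', h1', h2', al1, Jet.d1, qf, bf, ee, Pi.single_apply,
    Fin.reduceEq, if_true, if_false]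
  ring

theorem F1_lin_a (w a b : Fin 4 → ℝ) : J.F1 y1 y2 w a b = ∑ i, a i * J.F1 y1 y2 w (ee i) b := by
  simp only [Fin.sum_univ_four, F1, kap', h1', h2', al1, h1, h2, al, ee, Pi.single_apply,
    Fin.reduceEq, if_true, if_false]
  ring

theorem F2_lin_t (t w a b : Fin 4 → ℝ) :
    J.F2 y1 y2 t w a b = ∑ i, t i * J.F2 y1 y2 (ee i) w a b := by
  simp only [Fin.sum_univ_four, F2, kap'', ph', ph'', h1', h2', h1'', h2'', al1, al2, Jet.d1,
    Jet.d2, qf, bf, ee, Pi.single_apply, Fin.reduceEq, if_true, if_false]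
  ring

theorem F2_lin_w (t w a b : Fin 4 → ℝ) :
    J.F2 y1 y2 t w a b = ∑ i, w i * J.F2 y1 y2 t (ee i) a b := by
  simp only [Fin.sum_univ_four, F2, kap'', ph', ph'', h1', h2', h1'', h2'', al1, al2, Jet.d1,
    Jet.d2, qf, bf, ee, Pi.single_apply, Fin.reduceEq, if_true, if_false]
  ring

theorem F2_lin_a (t w a b : Fin 4 → ℝ) :
    J.F2 y1 y2 t w a b = ∑ i, a i * J.F2 y1 y2 t w (ee i) b := by
  simp only [Fin.sum_univ_four, F2, kap'', h1', h2', h1'', h2'', al1, al2, h1, h2, al, ee,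
    Pi.single_apply, Fin.reduceEq, if_true, if_false]
  ring

theorem F2_symm (t w a b : Fin 4 → ℝ) : J.F2 y1 y2 t w a b = J.F2 y1 y2 t w b a := by
  simp only [F2, kap'']; ring

theorem B_lin' (a b : Fin 4 → ℝ) : J.B y1 y2 a b = ∑ i, b i * J.B y1 y2 a (ee i) := by
  rw [B_symm, B_lin]; simp only [B_symm]

theorem F1_lin_b (w a b : Fin 4 → ℝ) : J.F1 y1 y2 w a b = ∑ i, b i * J.F1 y1 y2 w a (ee i) := by
  rw [F1_symm, F1_lin_a]
  exact Finset.sum_congr rfl fun i _ => by rw [F1_symm]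

theorem F2_lin_b (t w a b : Fin 4 → ℝ) :
    J.F2 y1 y2 t w a b = ∑ i, b i * J.F2 y1 y2 t w a (ee i) := by
  rw [F2_symm, F2_lin_a]
  exact Finset.sum_congr rfl fun i _ => by rw [F2_symm]

theorem G3_lin_a (a b w : Fin 4 → ℝ) : J.G3 y1 y2 a b w = ∑ i, a i * J.G3 y1 y2 (ee i) b w := by
  unfold G3
  rw [F1_lin_w, F1_lin_a _ _ _ b a w, F1_lin_a _ _ _ w a b]
  simp only [Fin.sum_univ_four]
  ring

theorem G3_symm (a b w : Fin 4 → ℝ) : J.G3 y1 y2 a b w = J.G3 y1 y2 b a w := by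
  unfold G3
  rw [F1_symm _ _ _ w a b]
  ring

theorem G3_lin_b (a b w : Fin 4 → ℝ) : J.G3 y1 y2 a b w = ∑ i, b i * J.G3 y1 y2 a (ee i) w := by
  rw [G3_symm, G3_lin_a]
  exact Finset.sum_congr rfl fun i _ => by rw [G3_symm]

end Jets

end Pool.Agent.helper65.Tor
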