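import Pool.Agent.helper65.Tor.Calc2

set_option autoImplicit false

noncomputable section

namespace Pool.Agent.helper65.Tor

theorem coord_contDiff (i : Fin 4) {n : WithTop ℕ∞} : ContDiff ℝ n (fun z : E4 => z i) :=
  contDiff_apply ℝ ℝ i

theorem ev_cd (f : TP) {n : WithTop ℕ∞} : ContDiff ℝ n (fun z : E4 => ev f (z 0) (z 1)) :=
  ev_contDiff f (coord_contDiff 0) (coord_contDiff 1)

theorem B_cd (a b : E4) {n : WithTop ℕ∞} :
    ContDiff ℝ n (fun z : E4 => (JJ z).B (z 2) (z 3) a b) := by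
  have h0 := coord_contDiff (n := n) 0
  have h1 := coord_contDiff (n := n) 1
  have h2 := coord_contDiff (n := n) 2
  have h3 := coord_contDiff (n := n) 3
  have e1 := ev_cd dS0 (n := n)
  have e2 := ev_cd dSr (n := n)
  have e3 := ev_cd dSi (n := n)
  have e4 := ev_cd dT0 (n := n)
  have e5 := ev_cd dTr (n := n)
  have e6 := ev_cd dTi (n := n)
  have e7 := ev_cd dK0 (n := n)
  have e8 := ev_cd dKr (n := n)
  have e9 := ev_cd dKi (n := n)
  have e10 := ev_cd dA1 (n := n)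
  have e11 := ev_cd dA2 (n := n)
  simp only [JJ, djets, jet, Jets.B, Jets.kap, Jets.ph, Jets.h1, Jets.h2, Jets.al, qf]
  fun_prop

theorem F1_cd (w a b : E4) {n : WithTop ℕ∞} :
    ContDiff ℝ n (fun z : E4 => (JJ z).F1 (z 2) (z 3) w a b) := by
  have h0 := coord_contDiff (n := n) 0
  have h1 := coord_contDiff (n := n) 1
  have h2 := coord_contDiff (n := n) 2
  have h3 := coord_contDiff (n := n) 3
  have e : ∀ f : TP, ContDiff ℝ n (fun z : E4 => ev f (z 0) (z 1)) := fun f => ev_cd f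
  simp only [JJ, djets, jet, Jets.F1, Jets.kap', Jets.ph, Jets.ph', Jets.h1, Jets.h2, Jets.h1',
    Jets.h2', Jets.al, Jets.al1, Jet.d1, qf, bf]
  fun_prop

theorem gl_cd (i j : Fin 4) {n : WithTop ℕ∞} : ContDiff ℝ n (gl i j) := B_cd (ee i) (ee j)

theorem gl_symm (i j : Fin 4) (z : E4) : gl i j z = gl j i z := Jets.B_symm _ _ _ _ _

theorem fderiv_gl (i j : Fin 4) (z w : E4) :
    fderiv ℝ (gl i j) z w = (JJ z).F1 (z 2) (z 3) w (ee i) (ee j) := by
  have hd : DifferentiableAt ℝ (gl i j) z :=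
    ((gl_cd i j (n := 1)).differentiable one_ne_zero).differentiableAt
  rw [← hd.lineDeriv_eq_fderiv]
  exact HasLineDerivAt.lineDeriv (B_d (ee i) (ee j) z w)

theorem fderiv2_gl (i j : Fin 4) (z w t : E4) :
    fderiv ℝ (fun y => fderiv ℝ (gl i j) y w) z t
      = (JJ z).F2 (z 2) (z 3) t w (ee i) (ee j) := by
  have e : (fun y => fderiv ℝ (gl i j) y w)
      = (fun y => (JJ y).F1 (y 2) (y 3) w (ee i) (ee j)) := by
    funext y; exact fderiv_gl i j y w
  rw [e]
  have hd : DifferentiableAt ℝ (fun y : E4 => (JJ y).F1 (y 2) (y 3) w (ee i) (ee j)) z :=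
    ((F1_cd w (ee i) (ee j) (n := 1)).differentiable one_ne_zero).differentiableAt
  rw [← hd.lineDeriv_eq_fderiv]
  exact HasLineDerivAt.lineDeriv (F1_d w (ee i) (ee j) z t)

theorem Gam_gl (a k l : Fin 4) (z : E4) :
    Gam gl a k l z = (JJ z).G3 (z 2) (z 3) (ee k) (ee l) (ee a) := by
  unfold Gam Jets.G3
  rw [fderiv_gl, fderiv_gl, fderiv_gl]

theorem Num_gl (z u v : E4) (hd0 : (JJ z).hd (z 2) (z 3) ≠ 0)
    (hph : Jets.ph (z 2) (z 3) ≠ 0) :
    Num gl z u v = (JJ z).Tot (z 2) (z 3) u v := by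
  rw [Num_formula gl z
    (S := fun t w a b => (JJ z).F2 (z 2) (z 3) t w a b)
    (G := fun a b w => (JJ z).G3 (z 2) (z 3) a b w)
    ⟨Jets.F2_lin_t _ _ _, Jets.F2_lin_w _ _ _, Jets.F2_lin_a _ _ _, Jets.F2_lin_b _ _ _⟩
    (Jets.G3_lin_a _ _ _) (Jets.G3_lin_b _ _ _)
    (fun i k l m => fderiv2_gl i m z _ _)
    (fun a k l => Gam_gl a k l z)]
  exact (JJ z).Tot_formula (z 2) (z 3) hd0 hph u v

/-- uniform bound for the jets -/
theorem ev_bd (f : TP) (x y : ℝ) :
    |ev f x y| ≤ (f.map fun t => (|(t.2.2.1 : ℝ)| + |(t.2.2.2 : ℝ)|) / 20000).sum := by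
  induction f with
  | nil => simp [ev]
  | cons t f ih =>
    rw [ev_cons, List.map_cons, List.sum_cons]
    refine (abs_add_le _ _).trans (add_le_add ?_ ih)
    rw [abs_div, abs_of_pos (by norm_num : (0:ℝ) < 20000)]
    refine div_le_div_of_nonneg_right ?_ (by norm_num)
    refine (abs_add_le _ _).trans (add_le_add ?_ ?_)
    · rw [abs_mul]
      exact mul_le_of_le_one_right (abs_nonneg _) (Real.abs_cos_le_one _)
    · rw [abs_mul]
      exact mul_le_of_le_one_right (abs_nonneg _) (Real.abs_sin_le_one _)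

theorem ev_per1 (f : TP) (x y : ℝ) : ev f (x + 2 * Real.pi) y = ev f x y := by
  induction f with
  | nil => simp [ev]
  | cons t f ih =>
    rw [ev_cons, ev_cons, ih]
    have e : (t.1 : ℝ) * (x + 2 * Real.pi) + t.2.1 * y
      = ((t.1 : ℝ) * x + t.2.1 * y) + (t.1 : ℝ) * (2 * Real.pi) := by ring
    rw [e, Real.cos_add_int_mul_two_pi, Real.sin_add_int_mul_two_pi]

theorem ev_per2 (f : TP) (x y : ℝ) : ev f x (y + 2 * Real.pi) = ev f x y := by
  induction f with
  | nil => simp [ev]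
  | cons t f ih =>
    rw [ev_cons, ev_cons, ih]
    have e : (t.1 : ℝ) * x + t.2.1 * (y + 2 * Real.pi)
      = ((t.1 : ℝ) * x + t.2.1 * y) + (t.2.1 : ℝ) * (2 * Real.pi) := by ring
    rw [e, Real.cos_add_int_mul_two_pi, Real.sin_add_int_mul_two_pi]

theorem djets_per1 (x y : ℝ) : djets (x + 2 * Real.pi) y = djets x y := by
  simp only [djets, jet, ev_per1]

theorem djets_per2 (x y : ℝ) : djets x (y + 2 * Real.pi) = djets x y := by
  simp only [djets, jet, ev_per2]

end Pool.Agent.helper65.Tor
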