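import Pool.Agent.helper65.Tor.Loc

set_option autoImplicit false

noncomputable section

namespace Pool.Agent.helper65.Tor

/-- the radius of the tube -/
def rho : ℝ := 1 / 10000

theorem rho_pos : 0 < rho := by unfold rho; norm_num

def sqz (z : E4) : ℝ := Real.sqrt (1 + z 2 ^ 2 + z 3 ^ 2)

theorem sqz_pos (z : E4) : 0 < sqz z := Real.sqrt_pos.mpr (by positivity)

theorem sqz_sq (z : E4) : sqz z ^ 2 = 1 + z 2 ^ 2 + z 3 ^ 2 := Real.sq_sqrt (by positivity)

theorem sqz_cd {n : WithTop ℕ∞} : ContDiff ℝ n sqz := by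
  have h2 := coord_contDiff (n := n) 2
  have h3 := coord_contDiff (n := n) 3
  unfold sqz
  refine ContDiff.sqrt (by fun_prop) fun z => ?_
  have : 0 < 1 + z 2 ^ 2 + z 3 ^ 2 := by positivity
  exact this.ne'

/-- the map from `ℝ⁴` to the tube -/
def Phi (z : E4) : E4 :=
  ![2 * Real.pi * z 0, 2 * Real.pi * z 1, rho * z 2 / sqz z, rho * z 3 / sqz z]

theorem Phi_cd {n : WithTop ℕ∞} : ContDiff ℝ n Phi := by
  have h0 := coord_contDiff (n := n) 0
  have h1 := coord_contDiff (n := n) 1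
  have h2 := coord_contDiff (n := n) 2
  have h3 := coord_contDiff (n := n) 3
  rw [contDiff_pi]
  intro i
  fin_cases i
  · change ContDiff ℝ n fun z : E4 => 2 * Real.pi * z 0
    fun_prop
  · change ContDiff ℝ n fun z : E4 => 2 * Real.pi * z 1
    fun_prop
  · change ContDiff ℝ n fun z : E4 => rho * z 2 / sqz z
    exact (contDiff_const.mul h2).div sqz_cd fun z => (sqz_pos z).ne'
  · change ContDiff ℝ n fun z : E4 => rho * z 3 / sqz z
    exact (contDiff_const.mul h3).div sqz_cd fun z => (sqz_pos z).ne'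

theorem Phi_norm (z : E4) :
    Phi z 2 ^ 2 + Phi z 3 ^ 2 = rho ^ 2 * (z 2 ^ 2 + z 3 ^ 2) / (1 + z 2 ^ 2 + z 3 ^ 2) := by
  have e2 : Phi z 2 = rho * z 2 / sqz z := rfl
  have e3 : Phi z 3 = rho * z 3 / sqz z := rfl
  have hs := sqz_sq z
  have hp := (sqz_pos z).ne'
  have h1 : 1 + z 2 ^ 2 + z 3 ^ 2 ≠ 0 := by positivity
  rw [e2, e3, div_pow, div_pow, hs]
  field_simp

theorem Phi_norm_lt (z : E4) : Phi z 2 ^ 2 + Phi z 3 ^ 2 ≤ rho ^ 2 := by
  rw [Phi_norm, div_le_iff₀ (by positivity)]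
  nlinarith [sq_nonneg rho]

theorem Phi_norm_pos (z : E4) (hz : z 2 ≠ 0 ∨ z 3 ≠ 0) : 0 < Phi z 2 ^ 2 + Phi z 3 ^ 2 := by
  rw [Phi_norm]
  have h := rho_pos
  have : 0 < z 2 ^ 2 + z 3 ^ 2 := by
    rcases hz with hz | hz <;> positivity
  positivity

/-- local inverse -/
def Psi (w : E4) : E4 :=
  ![w 0 / (2 * Real.pi), w 1 / (2 * Real.pi),
    w 2 / Real.sqrt (rho ^ 2 - (w 2 ^ 2 + w 3 ^ 2)), w 3 / Real.sqrt (rho ^ 2 - (w 2 ^ 2 + w 3 ^ 2))]

theorem rho_sub (z : E4) :
    rho ^ 2 - (Phi z 2 ^ 2 + Phi z 3 ^ 2) = (rho / sqz z) ^ 2 := by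
  rw [Phi_norm, div_pow, sqz_sq]
  have h1 : 1 + z 2 ^ 2 + z 3 ^ 2 ≠ 0 := by positivity
  field_simp
  ring

theorem Psi_Phi (z : E4) : Psi (Phi z) = z := by
  have hp := sqz_pos z
  have hr := rho_pos
  have hpi := Real.pi_pos
  have e : Real.sqrt (rho ^ 2 - (Phi z 2 ^ 2 + Phi z 3 ^ 2)) = rho / sqz z := by
    rw [rho_sub, Real.sqrt_sq (by positivity)]
  funext i
  fin_cases i
  · change 2 * Real.pi * z 0 / (2 * Real.pi) = z 0
    field_simp
  · change 2 * Real.pi * z 1 / (2 * Real.pi) = z 1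
    field_simp
  · change Phi z 2 / Real.sqrt (rho ^ 2 - (Phi z 2 ^ 2 + Phi z 3 ^ 2)) = z 2
    rw [e]
    change rho * z 2 / sqz z / (rho / sqz z) = z 2
    field_simp
  · change Phi z 3 / Real.sqrt (rho ^ 2 - (Phi z 2 ^ 2 + Phi z 3 ^ 2)) = z 3
    rw [e]
    change rho * z 3 / sqz z / (rho / sqz z) = z 3
    field_simp

theorem Psi_diff (z : E4) : DifferentiableAt ℝ Psi (Phi z) := by
  have hp := sqz_pos z
  have hr := rho_pos
  have hpos : 0 < rho ^ 2 - (Phi z 2 ^ 2 + Phi z 3 ^ 2) := by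
    rw [rho_sub]; positivity
  have hc : ∀ i : Fin 4, DifferentiableAt ℝ (fun w : E4 => w i) (Phi z) := fun i =>
    differentiableAt_apply i _
  have h2 := hc 2
  have h3 := hc 3
  have h0 := hc 0
  have h1 := hc 1
  have hs : DifferentiableAt ℝ (fun w : E4 => Real.sqrt (rho ^ 2 - (w 2 ^ 2 + w 3 ^ 2)))
      (Phi z) := by
    refine DifferentiableAt.sqrt (by fun_prop) hpos.ne'
  have hsne : Real.sqrt (rho ^ 2 - (Phi z 2 ^ 2 + Phi z 3 ^ 2)) ≠ 0 :=
    (Real.sqrt_pos.mpr hpos).ne'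
  rw [differentiableAt_pi]
  intro i
  fin_cases i
  · change DifferentiableAt ℝ (fun w : E4 => w 0 / (2 * Real.pi)) _
    simp only [div_eq_mul_inv]
    exact h0.mul_const _
  · change DifferentiableAt ℝ (fun w : E4 => w 1 / (2 * Real.pi)) _
    simp only [div_eq_mul_inv]
    exact h1.mul_const _
  · change DifferentiableAt ℝ (fun w : E4 => w 2 / Real.sqrt (rho ^ 2 - (w 2 ^ 2 + w 3 ^ 2))) _
    simp only [div_eq_mul_inv]
    exact h2.mul (hs.inv hsne)
  · change DifferentiableAt ℝ (fun w : E4 => w 3 / Real.sqrt (rho ^ 2 - (w 2 ^ 2 + w 3 ^ 2))) _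
    simp only [div_eq_mul_inv]
    exact h3.mul (hs.inv hsne)

theorem Phi_diff : Differentiable ℝ Phi := (Phi_cd (n := 1)).differentiable one_ne_zero

theorem Phi_inj (z : E4) : Function.Injective (fderiv ℝ Phi z) := by
  have h := (Psi_diff z).hasFDerivAt.comp z (Phi_diff z).hasFDerivAt
  have hid : Psi ∘ Phi = id := funext fun z => Psi_Phi z
  rw [hid] at h
  have h2 := h.unique (hasFDerivAt_id z)
  intro a b hab
  have : (fderiv ℝ Psi (Phi z)).comp (fderiv ℝ Phi z) a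
      = (fderiv ℝ Psi (Phi z)).comp (fderiv ℝ Phi z) b := by
    rw [ContinuousLinearMap.comp_apply, ContinuousLinearMap.comp_apply, hab]
  rw [h2] at this
  simpa using this

/-- translation in the torus directions -/
theorem Phi_add (z : E4) (s : ℝ) (i : Fin 4) (hi : i.val < 2) :
    Phi (z + s • ee i) = Phi z + (2 * Real.pi * s) • ee i := by
  have hi' : i = 0 ∨ i = 1 := by
    rcases i with ⟨i, hi4⟩
    interval_cases i
    · left; rfl
    · right; rfl
  rcases hi' with rfl | rfl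
  · have e2 : (z + s • ee 0 : E4) 2 = z 2 := by simp [ee]
    have e3 : (z + s • ee 0 : E4) 3 = z 3 := by simp [ee]
    have e1 : (z + s • ee 0 : E4) 1 = z 1 := by simp [ee]
    have e0 : (z + s • ee 0 : E4) 0 = z 0 + s := by simp [ee]
    have es : sqz (z + s • ee 0) = sqz z := by unfold sqz; rw [e2, e3]
    unfold Phi
    rw [e0, e1, e2, e3, es]
    funext j
    fin_cases j
    · simp [ee]; ring
    · simp [ee]
    · simp [ee]
    · simp [ee]
  · have e2 : (z + s • ee 1 : E4) 2 = z 2 := by simp [ee]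
    have e3 : (z + s • ee 1 : E4) 3 = z 3 := by simp [ee]
    have e1 : (z + s • ee 1 : E4) 1 = z 1 + s := by simp [ee]
    have e0 : (z + s • ee 1 : E4) 0 = z 0 := by simp [ee]
    have es : sqz (z + s • ee 1) = sqz z := by unfold sqz; rw [e2, e3]
    unfold Phi
    rw [e0, e1, e2, e3, es]
    funext j
    fin_cases j
    · simp [ee]
    · simp [ee]; ring
    · simp [ee]
    · simp [ee]

theorem DPhi_ee (z : E4) (i : Fin 4) (hi : i.val < 2) :
    fderiv ℝ Phi z (ee i) = (2 * Real.pi) • ee i := by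
  rw [← (Phi_diff z).lineDeriv_eq_fderiv]
  refine HasLineDerivAt.lineDeriv ?_
  unfold HasLineDerivAt
  have e : (fun s : ℝ => Phi (z + s • ee i)) = fun s : ℝ => Phi z + (2 * Real.pi * s) • ee i := by
    funext s; exact Phi_add z s i hi
  rw [e]
  have h1 : HasDerivAt (fun s : ℝ => 2 * Real.pi * s) (2 * Real.pi) 0 := by
    simpa using (hasDerivAt_id (0:ℝ)).const_mul (2 * Real.pi)
  exact (h1.smul_const (ee i)).const_add (Phi z)

theorem Phi_per (z : E4) (i : Fin 4) (hi : i.val < 2) :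
    Phi (z + ee i) = Phi z + (2 * Real.pi) • ee i := by
  have := Phi_add z 1 i hi
  simpa using this

theorem DPhi_per (z : E4) (i : Fin 4) (hi : i.val < 2) :
    fderiv ℝ Phi (z + ee i) = fderiv ℝ Phi z := by
  rw [← fderiv_comp_add_right]
  have e : (fun x => Phi (x + ee i)) = fun x => Phi x + (2 * Real.pi) • ee i := by
    funext x; exact Phi_per x i hi
  rw [e, fderiv_add_const]

/-- the torus components of the derivative -/
theorem DPhi_comp (z w : E4) (i : Fin 4) (hi : i.val < 2) :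
    fderiv ℝ Phi z w i = 2 * Real.pi * w i := by
  have h := (hasFDerivAt_pi'.1 (Phi_diff z).hasFDerivAt) i
  have hi' : (fun x => Phi x i) = fun x : E4 => 2 * Real.pi * x i := by
    rcases i with ⟨i, hi4⟩
    interval_cases i <;> rfl
  rw [hi'] at h
  have h2 : HasFDerivAt (fun x : E4 => 2 * Real.pi * x i)
      ((2 * Real.pi) • (ContinuousLinearMap.proj i : E4 →L[ℝ] ℝ)) z :=
    (ContinuousLinearMap.proj (R := ℝ) (φ := fun _ : Fin 4 => ℝ) i).hasFDerivAt.const_mul _
  have h3 := h.unique h2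
  have h4 := congrArg (fun L : E4 →L[ℝ] ℝ => L w) h3
  simpa using h4

end Pool.Agent.helper65.Tor
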