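import Pool.Agent.helper65.Tor.Bounds
import Pool.Agent.helper65.Tor.MapPhi
import Pool.Agent.helper63.TorPull
import Pool.Agent.helper86.TorCert.Cert

set_option autoImplicit false

noncomputable section

namespace Pool.Agent.helper65.Tor

/-- the global metric -/
def gg : Met := pull gl Phi

theorem Phi_small (z : E4) : Phi z 2 ^ 2 + Phi z 3 ^ 2 ≤ 1 / 100000000 := by
  refine (Phi_norm_lt z).trans (le_of_eq ?_)
  unfold rho; norm_num

theorem gg_cd (i j : Fin 4) (n : ℕ) : ContDiff ℝ n (gg i j) := by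
  unfold gg pull
  refine ContDiff.sum fun p _ => ContDiff.sum fun q _ => ?_
  have h1 : ContDiff ℝ n (fun z => gl p q (Phi z)) := (gl_cd p q).comp Phi_cd
  have h2 : ContDiff ℝ n (fderiv ℝ Phi) := (Phi_cd (n := n + 1)).fderiv_right le_rfl
  have h3 : ∀ (k l : Fin 4), ContDiff ℝ n (fun z => fderiv ℝ Phi z (Pi.single k 1) l) := by
    intro k l
    have : ContDiff ℝ n (fun z => fderiv ℝ Phi z (Pi.single k 1)) :=
      h2.clm_apply contDiff_const
    exact (contDiff_pi.1 this) l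
  exact (h1.mul (h3 i p)).mul (h3 j q)

theorem gg_symm (i j : Fin 4) (z : E4) : gg i j z = gg j i z := by
  unfold gg pull
  rw [Finset.sum_comm]
  refine Finset.sum_congr rfl fun p _ => Finset.sum_congr rfl fun q _ => ?_
  rw [gl_symm]
  ring

/-- bilinear form of the local metric -/
theorem gl_bil (w a b : E4) :
    ∑ p, ∑ q, gl p q w * a p * b q = (JJ w).B (w 2) (w 3) a b := by
  rw [Jets.B_lin (JJ w) (w 2) (w 3) a b]
  refine Finset.sum_congr rfl fun p _ => ?_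
  rw [Jets.B_lin' (JJ w) (w 2) (w 3) (ee p) b, Finset.mul_sum]
  refine Finset.sum_congr rfl fun q _ => ?_
  unfold gl
  ring

theorem gg_eq (i j : Fin 4) (z : E4) :
    gg i j z = (JJ (Phi z)).B (Phi z 2) (Phi z 3) (fderiv ℝ Phi z (ee i)) (fderiv ℝ Phi z (ee j)) :=
  gl_bil (Phi z) _ _

theorem vec_sum (v : E4) : ∑ i, v i • (ee i : E4) = v := by
  funext j
  simp [ee, Finset.sum_apply, Pi.single_apply]

theorem DPhi_sum (z v : E4) : fderiv ℝ Phi z v = ∑ i, v i • fderiv ℝ Phi z (ee i) := by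
  conv_lhs => rw [← vec_sum v]
  rw [map_sum]
  simp only [map_smul]

theorem gg_bil (z v : E4) :
    ∑ i, ∑ j, gg i j z * v i * v j
      = (JJ (Phi z)).B (Phi z 2) (Phi z 3) (fderiv ℝ Phi z v) (fderiv ℝ Phi z v) := by
  rw [← gl_bil (Phi z)]
  have hv : ∀ p, fderiv ℝ Phi z v p = ∑ i, v i * fderiv ℝ Phi z (ee i) p := by
    intro p
    rw [DPhi_sum z v, Finset.sum_apply]
    rfl
  simp only [hv]
  unfold gg pull
  simp only [Finset.sum_mul, Finset.mul_sum]
  -- both sides are sums over i, j, p, q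
  have e : ∀ (f : Fin 4 → Fin 4 → Fin 4 → Fin 4 → ℝ),
      ∑ i, ∑ j, ∑ p, ∑ q, f i j p q = ∑ p, ∑ q, ∑ j, ∑ i, f i j p q := by
    intro f
    refine (sw' _).trans ((sw _).trans ((sw'' _).trans ((sw' _).trans (sw'' _))))
  rw [e]
  refine Finset.sum_congr rfl fun p _ => Finset.sum_congr rfl fun q _ =>
    Finset.sum_congr rfl fun j _ => Finset.sum_congr rfl fun i _ => ?_
  ring

theorem gg_pos (z v : E4) (hv : v ≠ 0) : 0 < ∑ i, ∑ j, gg i j z * v i * v j := by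
  rw [gg_bil]
  refine Jets.B_pos (djets_bd _ _) ((Phi_small z).trans (by norm_num)) ?_
  intro h
  apply hv
  apply Phi_inj z
  rw [h, map_zero]

theorem JJ_per (w : E4) (i : Fin 4) (hi : i.val < 2) :
    JJ (w + (2 * Real.pi) • ee i) = JJ w := by
  have hi' : i = 0 ∨ i = 1 := by
    rcases i with ⟨i, hi4⟩
    interval_cases i
    · left; rfl
    · right; rfl
  unfold JJ
  rcases hi' with rfl | rfl
  · have e0 : (w + (2 * Real.pi) • ee 0 : E4) 0 = w 0 + 2 * Real.pi := by simp [ee]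
    have e1 : (w + (2 * Real.pi) • ee 0 : E4) 1 = w 1 := by simp [ee]
    rw [e0, e1, djets_per1]
  · have e0 : (w + (2 * Real.pi) • ee 1 : E4) 0 = w 0 := by simp [ee]
    have e1 : (w + (2 * Real.pi) • ee 1 : E4) 1 = w 1 + 2 * Real.pi := by simp [ee]
    rw [e0, e1, djets_per2]

theorem gg_per (i j k : Fin 4) (hk : k.val < 2) (z : E4) : gg i j (z + ee k) = gg i j z := by
  rw [gg_eq, gg_eq, DPhi_per z k hk, Phi_per z k hk, JJ_per _ _ hk]
  have h2 : (Phi z + (2 * Real.pi) • ee k) 2 = Phi z 2 := by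
    have : (ee k : E4) 2 = 0 := by
      unfold ee
      rw [Pi.single_apply, if_neg]
      intro h; rw [← h] at hk; exact absurd hk (by decide)
    simp [this]
  have h3 : (Phi z + (2 * Real.pi) • ee k) 3 = Phi z 3 := by
    have : (ee k : E4) 3 = 0 := by
      unfold ee
      rw [Pi.single_apply, if_neg]
      intro h; rw [← h] at hk; exact absurd hk (by decide)
    simp [this]
  rw [h2, h3]

theorem Phi_T0 {z : E4} (h2 : z 2 = 0) (h3 : z 3 = 0) : Phi z 2 = 0 ∧ Phi z 3 = 0 := by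
  constructor
  · change rho * z 2 / sqz z = 0
    rw [h2]; simp
  · change rho * z 3 / sqz z = 0
    rw [h3]; simp

theorem B_T0 (J : Jets) (a b : E4) : J.B 0 0 a b = ∑ i, a i * b i := by
  simp only [Jets.B, Jets.kap, Jets.h1, Jets.h2, Jets.al, Jets.ph, qf, Fin.sum_univ_four]
  ring

theorem F1_T0 (J : Jets) (w : E4) (i j : Fin 4) (hi : i.val < 2) (hj : j.val < 2) :
    J.F1 0 0 w (ee i) (ee j) = 0 := by
  have hi2 : (ee i : E4) 2 = 0 := by
    unfold ee; rw [Pi.single_apply, if_neg]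
    intro h; rw [← h] at hi; exact absurd hi (by decide)
  have hi3 : (ee i : E4) 3 = 0 := by
    unfold ee; rw [Pi.single_apply, if_neg]
    intro h; rw [← h] at hi; exact absurd hi (by decide)
  have hj2 : (ee j : E4) 2 = 0 := by
    unfold ee; rw [Pi.single_apply, if_neg]
    intro h; rw [← h] at hj; exact absurd hj (by decide)
  have hj3 : (ee j : E4) 3 = 0 := by
    unfold ee; rw [Pi.single_apply, if_neg]
    intro h; rw [← h] at hj; exact absurd hj (by decide)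
  simp only [Jets.F1, Jets.kap', Jets.h1, Jets.h2, Jets.ph', qf, bf, hi2, hi3, hj2, hj3]
  ring

theorem gg_T0 (i j : Fin 4) (hi : i.val < 2) {z : E4} (h2 : z 2 = 0) (h3 : z 3 = 0) :
    gg i j z = (2 * Real.pi) ^ 2 * (ee j : E4) i := by
  rw [gg_eq, (Phi_T0 h2 h3).1, (Phi_T0 h2 h3).2, B_T0, DPhi_ee z i hi]
  have e : ∀ k, ((2 * Real.pi) • ee i : E4) k * fderiv ℝ Phi z (ee j) k
      = if k = i then 2 * Real.pi * fderiv ℝ Phi z (ee j) i else 0 := by
    intro k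
    by_cases hk : k = i
    · subst hk; simp [ee]
    · simp [ee, hk]
  simp only [e, Finset.sum_ite_eq', Finset.mem_univ, if_true]
  rw [DPhi_comp z (ee j) i hi]
  ring

theorem gg_hor (i j : Fin 4) (hi : i.val < 2) (hj : j.val < 2) :
    gg i j = fun z => (2 * Real.pi) ^ 2 * gl i j (Phi z) := by
  funext z
  unfold gg pull
  change ∑ p, ∑ q, gl p q (Phi z) * fderiv ℝ Phi z (ee i) p * fderiv ℝ Phi z (ee j) q = _
  rw [DPhi_ee z i hi, DPhi_ee z j hj, gl_bil]
  have : (JJ (Phi z)).B (Phi z 2) (Phi z 3) ((2 * Real.pi) • ee i) ((2 * Real.pi) • ee j)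
      = (2 * Real.pi) ^ 2 * gl i j (Phi z) := by
    unfold gl
    simp only [Jets.B, Jets.kap, Jets.h1, Jets.h2, Jets.al, Pi.smul_apply, smul_eq_mul]
    ring
  exact this

theorem T0_line {z : E4} (h2 : z 2 = 0) (h3 : z 3 = 0) (k : Fin 4) (hk : k.val < 2) (s : ℝ) :
    (z + s • ee k : E4) 2 = 0 ∧ (z + s • ee k : E4) 3 = 0 := by
  have hi2 : (ee k : E4) 2 = 0 := by
    unfold ee; rw [Pi.single_apply, if_neg]
    intro h; rw [← h] at hk; exact absurd hk (by decide)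
  have hi3 : (ee k : E4) 3 = 0 := by
    unfold ee; rw [Pi.single_apply, if_neg]
    intro h; rw [← h] at hk; exact absurd hk (by decide)
  constructor
  · simp [hi2, h2]
  · simp [hi3, h3]

theorem dgg_tan (i j k : Fin 4) (hi : i.val < 2) (hk : k.val < 2) {z : E4} (h2 : z 2 = 0)
    (h3 : z 3 = 0) : fderiv ℝ (gg i j) z (ee k) = 0 := by
  have hd : DifferentiableAt ℝ (gg i j) z :=
    ((gg_cd i j 1).differentiable (by norm_num)).differentiableAt
  rw [← hd.lineDeriv_eq_fderiv]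
  refine HasLineDerivAt.lineDeriv ?_
  unfold HasLineDerivAt
  have e : (fun s : ℝ => gg i j (z + s • ee k)) = fun _ => (2 * Real.pi) ^ 2 * (ee j : E4) i := by
    funext s
    exact gg_T0 i j hi (T0_line h2 h3 k hk s).1 (T0_line h2 h3 k hk s).2
  rw [e]
  exact hasDerivAt_const _ _

theorem ddgg_tan (i j k l : Fin 4) (hi : i.val < 2) (hk : k.val < 2) (hl : l.val < 2) {z : E4}
    (h2 : z 2 = 0) (h3 : z 3 = 0) :
    fderiv ℝ (fun y => fderiv ℝ (gg i j) y (ee k)) z (ee l) = 0 := by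
  have hc : ContDiff ℝ 1 (fun y => fderiv ℝ (gg i j) y (ee k)) := by
    have : ContDiff ℝ 1 (fderiv ℝ (gg i j)) :=
      ContDiff.fderiv_right (m := 1) (n := 2) (by exact_mod_cast gg_cd i j 2) (by norm_num)
    exact this.clm_apply contDiff_const
  have hd : DifferentiableAt ℝ (fun y => fderiv ℝ (gg i j) y (ee k)) z :=
    (hc.differentiable one_ne_zero).differentiableAt
  rw [← hd.lineDeriv_eq_fderiv]
  refine HasLineDerivAt.lineDeriv ?_
  unfold HasLineDerivAt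
  have e : (fun s : ℝ => fderiv ℝ (gg i j) (z + s • ee l) (ee k)) = fun _ => 0 := by
    funext s
    exact dgg_tan i j k hi hk (T0_line h2 h3 l hl s).1 (T0_line h2 h3 l hl s).2
  rw [e]
  exact hasDerivAt_const _ _

theorem dgg_nor (i j k : Fin 4) (hi : i.val < 2) (hj : j.val < 2) {z : E4} (h2 : z 2 = 0)
    (h3 : z 3 = 0) : fderiv ℝ (gg i j) z (ee k) = 0 := by
  rw [gg_hor i j hi hj]
  have h1 : HasFDerivAt (fun z => gl i j (Phi z)) ((fderiv ℝ (gl i j) (Phi z)).comp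
      (fderiv ℝ Phi z)) z := by
    have a : DifferentiableAt ℝ (gl i j) (Phi z) :=
      ((gl_cd i j (n := 1)).differentiable one_ne_zero).differentiableAt
    exact a.hasFDerivAt.comp z (Phi_diff z).hasFDerivAt
  rw [(h1.const_mul ((2 * Real.pi) ^ 2)).fderiv]
  have h4 : fderiv ℝ (gl i j) (Phi z) (fderiv ℝ Phi z (ee k)) = 0 := by
    rw [fderiv_gl, (Phi_T0 h2 h3).1, (Phi_T0 h2 h3).2]
    exact F1_T0 _ _ _ _ hi hj
  simp [h4]

theorem Gam_T0 (a i j : Fin 4) (hi : i.val < 2) (hj : j.val < 2) {z : E4} (h2 : z 2 = 0)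
    (h3 : z 3 = 0) : Gam gg a i j z = 0 := by
  unfold Gam
  have e1 := dgg_tan j a i hj hi h2 h3
  have e2 := dgg_tan i a j hi hj h2 h3
  have e3 := dgg_nor i j a hi hj h2 h3
  unfold ee at e1 e2 e3
  rw [e1, e2, e3]
  norm_num

theorem Riem_T0 {z : E4} (h2 : z 2 = 0) (h3 : z 3 = 0) : Riem gg 0 1 0 1 z = 0 := by
  unfold Riem
  have l0 : (0 : Fin 4).val < 2 := by decide
  have l1 : (1 : Fin 4).val < 2 := by decide
  have e1 := ddgg_tan 0 1 1 0 l0 l1 l0 h2 h3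
  have e2 := ddgg_tan 1 0 0 1 l1 l0 l1 h2 h3
  have e3 := ddgg_tan 0 0 1 1 l0 l1 l1 h2 h3
  have e4 := ddgg_tan 1 1 0 0 l1 l0 l0 h2 h3
  unfold ee at e1 e2 e3 e4
  rw [e1, e2, e3, e4]
  simp only [Gam_T0 _ _ _ l1 l0 h2 h3, Gam_T0 _ _ _ l0 l1 h2 h3, Gam_T0 _ _ _ l1 l1 h2 h3,
    Gam_T0 _ _ _ l0 l0 h2 h3]
  simp

theorem gl_det (w : E4) (hw : w 2 ^ 2 + w 3 ^ 2 ≤ 1 / 48) :
    (Matrix.of fun p q => gl p q w).det ≠ 0 := by
  have hph : Jets.ph (w 2) (w 3) ≠ 0 := by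
    unfold Jets.ph
    have : 0 < 1 - (w 2 ^ 2 + w 3 ^ 2) := by linarith
    exact this.ne'
  have hhd : (JJ w).hd (w 2) (w 3) ≠ 0 := (Jets.hd_pos (djets_bd _ _) hw).ne'
  have hu : IsUnit ((JJ w).gm (w 2) (w 3)) := by
    rw [← Matrix.mulVec_surjective_iff_isUnit]
    intro b
    exact ⟨_, Jets.gm_mulVec (JJ w) (w 2) (w 3) hhd hph b⟩
  have hdet : IsUnit ((JJ w).gm (w 2) (w 3)).det := (Matrix.isUnit_iff_isUnit_det _).1 hu
  exact hdet.ne_zero


theorem Num_pos (z u v : E4) (hz : z 2 ≠ 0 ∨ z 3 ≠ 0) (hli : LinearIndependent ℝ ![u, v]) :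
    0 < Num gg z u v := by
  have hs := Phi_small z
  have hs48 : Phi z 2 ^ 2 + Phi z 3 ^ 2 ≤ 1 / 48 := hs.trans (by norm_num)
  have hpull := Pool.Agent.helper63.TorPull.pull_num gl Phi z u v (fun i j => gl_cd i j)
    gl_symm Phi_cd (gl_det (Phi z) hs48) (Phi_inj z)
  have hph : Jets.ph (Phi z 2) (Phi z 3) ≠ 0 := by
    unfold Jets.ph
    have : 0 < 1 - (Phi z 2 ^ 2 + Phi z 3 ^ 2) := by linarith
    exact this.ne'
  have hhd : (JJ (Phi z)).hd (Phi z 2) (Phi z 3) ≠ 0 :=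
    (Jets.hd_pos (djets_bd _ _) hs48).ne'
  unfold gg
  rw [hpull, Num_gl _ _ _ hhd hph]
  have hli' : LinearIndependent ℝ ![fderiv ℝ Phi z u, fderiv ℝ Phi z v] := by
    have h1 := hli.map' (fderiv ℝ Phi z : E4 →ₗ[ℝ] E4)
      (LinearMap.ker_eq_bot.2 (Phi_inj z))
    have e : (⇑(fderiv ℝ Phi z : E4 →ₗ[ℝ] E4) ∘ ![u, v])
        = ![fderiv ℝ Phi z u, fderiv ℝ Phi z v] := by
      funext i; fin_cases i <;> rfl
    rwa [e] at h1
  refine Jets.Tot_pos (C := 1) (m := 1 / 1000) (djets_bd _ _) zero_le_one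
    (fun w0 w1 w2 w3 w4 w5 => Pool.Agent.helper86.TorCert.cert _ _ w0 w1 w2 w3 w4 w5)
    (Phi_norm_pos z hz) (hs.trans (by norm_num)) ?_ ?_ _ _ hli'
  · linarith
  · unfold Jets.Kc
    linarith

end Pool.Agent.helper65.Tor
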